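import Pool.Agent.W376.TCI.DataZ
set_option autoImplicit false

/-! Check functions (adapted from `Pool.Agent.Helper805.Nuc.Chk7`). -/

namespace Pool.Agent.W376.TCI.ChkZ
open Pool.Agent.W376.TCI.SuperZ Pool.Agent.W376.TCI.DataZ

/-- append the multiple of a sparse vector -/
noncomputable def axpy (a : ℤ) (M tail : List (ℕ × ℤ)) : List (ℕ × ℤ) :=
  List.rec tail (fun q _ ih => (q.1, Int.mul a q.2) :: ih) M

noncomputable def bindR (a : ℤ) (f : ℕ → List (ℕ × ℤ)) (L tail : List (ℕ × ℤ)) : List (ℕ × ℤ) :=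
  List.rec tail (fun q _ ih => axpy (Int.mul a q.2) (f q.1) ih) L

/-- sum of the entries with key k -/
noncomputable def ksum (k : ℕ) (L : List (ℕ × ℤ)) : ℤ :=
  List.rec 0 (fun q _ ih => cond (Nat.beq q.1 k) (Int.add q.2 ih) ih) L

/-- remove the entries with key k -/
noncomputable def krem (k : ℕ) (L : List (ℕ × ℤ)) : List (ℕ × ℤ) :=
  List.rec [] (fun q _ ih => cond (Nat.beq q.1 k) ih (q :: ih)) L

/-- is the integer zero? -/
noncomputable def isZ (z : ℤ) : Bool := Int.rec (fun n => Nat.beq n 0) (fun _ => false) z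

noncomputable def zeroAux (n : ℕ) : List (ℕ × ℤ) → Bool :=
  Nat.rec (fun L => List.rec true (fun _ _ _ => false) L)
    (fun _ f L => List.rec true (fun q M _ =>
      cond (isZ (Int.add q.2 (ksum q.1 M))) (f (krem q.1 M)) false) L) n

noncomputable def AR (i j k : ℕ) (a : ℤ) (tail : List (ℕ × ℤ)) : List (ℕ × ℤ) :=
  bindR a (fun m => T m k) (T i j) (bindR (Int.neg a) (fun m => T i m) (T j k) tail)

/-- sign -/
def sgn (d e : ℕ) : ℤ := cond (Nat.beq ((d % 2) * (e % 2)) 1) (Int.negSucc 0) (Int.ofNat 1)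

noncomputable def chkGrade : Bool :=
  comps.all fun c1 => comps.all fun c2 => c1.2.2.all fun i => c2.2.2.all fun j => (T i j).all fun r =>
    Nat.blt r.1 65 && (Nat.beq (wa r.1) (c1.1 + c2.1) && Nat.beq (wb r.1) (c1.2.1 + c2.2.1))

noncomputable def fL (c1 c2 : ℕ × ℕ × List ℕ) : Bool :=
  cond (Nat.blt 8 (c1.1 + c2.1)) true
    (cond (Nat.blt 1 (c1.2.1 + c2.2.1)) true (comps.all fun c3 => cond (Nat.blt 8 (c1.1 + c2.1 + c3.1)) true
    (cond (Nat.blt 1 (c1.2.1 + c2.2.1 + c3.2.1)) true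
      (c1.2.2.all fun i => c2.2.2.all fun j => cond (Nat.blt j i) true (c3.2.2.all fun k =>
        zeroAux 20 (AR i j k (Int.ofNat 1) (AR j i k (sgn c1.1 c2.1) [])))))))

noncomputable def chkL : Bool := comps.all fun c1 => comps.all fun c2 => fL c1 c2

noncomputable def fR (c1 c2 : ℕ × ℕ × List ℕ) : Bool :=
  cond (Nat.blt 8 (c1.1 + c2.1)) true
    (cond (Nat.blt 1 (c1.2.1 + c2.2.1)) true (comps.all fun c3 => cond (Nat.blt 8 (c1.1 + c2.1 + c3.1)) true
    (cond (Nat.blt 1 (c1.2.1 + c2.2.1 + c3.2.1)) true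
      (c1.2.2.all fun i => c2.2.2.all fun j => c3.2.2.all fun k => cond (Nat.blt k j) true (
        zeroAux 20 (AR i j k (Int.ofNat 1) (AR i k j (sgn c2.1 c3.1) [])))))))

noncomputable def chkR : Bool := comps.all fun c1 => comps.all fun c2 => fR c1 c2

end Pool.Agent.W376.TCI.ChkZ
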