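import Pool.Agent.W376.TCI.SuperZ
set_option autoImplicit false

/-! Structure constants of the 65-dimensional superalgebra (from `Pool.Agent.W429.TCI.WData`), as binary
tries.  An entry `m` in a leaf stands for the basis vector `m % 128` with the coefficient `c`, where
`m / 128 = 2 c` for `c ≥ 0` and `m / 128 = - 2 c - 1` for `c < 0`. -/

namespace Pool.Agent.W376.TCI.DataZ
open Pool.Agent.W376.TCI.SuperZ

inductive Tr (α : Type) : Type
  | l : α → Tr α
  | n : Tr α → Tr α → Tr α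

noncomputable def Tr.get {α : Type} (t : Tr α) : ℕ → α :=
  Tr.rec (fun a _ => a) (fun _ _ f g k => cond (Nat.beq (k % 2) 0) (f (k / 2)) (g (k / 2))) t

open Tr

def e : Tr (List ℕ) := l []

def r0 : Tr (List ℕ) := (n (n (n (n (n (n (n (l [258]) e) (n (l [8875, 36268, 173, 174, 303, 176]) e)) (n (n (l [3610, 3611, 1820, 1822, 1823]) e) (n (l [14008]) e))) (n (n (n (l [271]) e) (n (l [3250, 17075, 1844, 1845, 2230, 12471]) e)) (n (n (l [294]) e) e))) (n (n (n (n (l [264]) e) (n (l [47787, 178092, 301, 4270, 1584, 177]) e)) (n (n (l [5018, 16667, 5660, 7837, 5150, 7071, 1953, 674, 419, 164]) e) (n (l [316, 445]) e))) (n (n (n (l [662, 535, 537]) e) (n (l [696, 313]) e)) (n (n (l [2091, 5164, 173, 302]) e) e)))) (n (n (n (n (n (l [261]) e) (n (l [4651, 20524, 557, 687, 560]) e)) (n (n (l [4890, 2587, 156, 1181, 926, 159]) e) (n (l [828, 4541]) e))) (n (n (n (l [276]) e) (n (l [27570, 62387, 2740, 6197, 2230, 27575]) e)) (n (n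 (l [940]) e) (n (l [13758, 319]) e)))) (n (n (n (n (l [267]) e) (n (l [14002, 26547, 4020, 10805, 2230, 13239]) e)) (n (n (l [677, 166, 807, 296, 297]) e) (n (l [2620, 2621]) e))) (n (n (n (l [154, 539, 156, 157, 286, 288, 545, 162, 292]) e) (n (l [3000, 1337]) e)) (n (n (l [1451, 940, 173, 942]) e) (n (l [192]) e)))))) (n (n (n (n (n (n (l [259]) e) (n (l [6571, 30380, 173, 174, 175, 176]) e)) (n (n (l [154, 283, 156, 286, 159, 288, 545, 162, 163, 164]) e) (n (l [11320, 697, 826, 187]) e))) (n (n (n (l [275]) e) (n (l [2738, 1075, 2612, 949, 1718, 3511]) e)) (n (n (l [296]) e) (n (l [574]) e)))) (n (n (n (n (l [395, 524, 269]) e) (n (l [2482, 947, 820, 2997, 1974, 1847]) e)) (n (n (l [538, 3483, 1052, 1437, 670, 1055, 288]) e) (n (l [188, 3645]) e))) (n (n (n (l [279]) e) (n (l [1976, 825]) e)) (n (n (l [939, 556, 173, 430]) e) e)))) (n (n (n (n (n (l [263]) e) (n (l [14379, 48940, 1453, 1326, 559, 305]) e)) (n (n (l [1434,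 2587, 796, 285, 1438, 799]) e) (n (l [444, 2621]) e))) (n (n (n (l [406, 279, 280, 281]) e) (n (l [2872, 953]) e)) (n (n (l [683, 2732]) e) (n (l [46526, 1343]) e)))) (n (n (n (n (l [273]) e) (n (l [1202, 1203, 692, 2869, 2230, 1079]) e)) (n (n (l [1445, 422, 1063, 809, 554]) e) (n (l [572, 1981]) e))) (n (n (n (l [794, 18971, 1308, 413, 2078, 671, 544, 161, 290]) e) (n (l [184, 185, 186]) e)) (n (n (l [1579, 3628, 301, 302]) e) e))))))

def r1 : Tr (List ℕ) := (n (n (n (n (n (n (n (l [260]) e) e) e) (n (n e (n (l [53304, 12473, 1210]) e)) (n (n (l [3755, 1964, 1069, 942, 175]) e) e))) (n (n e (n e (n (l [702]) e))) (n (n (n (l [1434, 15003, 3484, 4637, 2974, 3103, 2336, 417, 802, 547]) e) e) (n e (n (l [320]) e))))) (n (n (n (n (n (l [136, 265, 266]) e) e) (n e (n (l [190]) e))) (n (n e (n (l [11320, 185, 1210]) e)) e)) (n (n (n (n (l [270, 143, 272, 275, 149]) e) (n (l [37048, 12857, 954]) e)) (n (n (l [14507, 44972, 4141,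 2478, 175]) e) (n (l [574]) e))) e))) (n (n (n e (n (n e (n (l [12344, 185, 698]) e)) (n (n (l [12459, 81580, 5677, 1966, 303, 177]) e) e))) (n (n (n (n (l [142, 271, 272, 274, 149]) e) (n (l [47416, 11193, 954]) e)) (n e (n (l [190]) e))) (n (n (n (l [1818, 7579, 1564, 5405, 2974, 1567, 928, 161, 930, 163]) e) e) e))) (n (n (n e (n e (n (l [574]) e))) (n (n (n (l [2330, 14491, 3996, 7197, 2974, 4127, 2336, 417, 802, 547]) e) e) e)) (n (n (n e (n (l [22840, 5049, 954]) e)) (n (n (l [2219, 34092, 2477, 2990, 687, 305]) e) (n (l [446]) e))) e))))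

def r2 : Tr (List ℕ) := (n (n (n (n (n (n (n (l [262]) e) (n (l [37432, 4537, 314]) e)) (n (n (l [1835, 12460, 1837, 1710]) e) (n (l [22334, 191]) e))) (n (n (n (l [1306, 15643, 2588, 2461, 1310, 159, 416, 289, 162]) e) (n (l [27324, 9533]) e)) (n (n (l [7090, 24755, 4020, 5941, 2230, 15543]) e) (n (l [320]) e)))) (n (n (n (n (l [271, 147, 277]) e) (n (l [6072, 22201, 3002, 571]) e)) (n (n (l [21163, 103852, 5421, 2222, 559, 432, 305]) e) e)) (n (n (n (l [167, 168, 297, 554]) e) (n (l [318]) e)) (n (n (l [1336, 697]) e) e)))) (n (n (n (n (n (l [139, 268, 269]) e) (n (l [59320, 9273]) e)) (n (n (l [2475, 29100, 1837, 3118]) e) e)) (n (n (n (l [410, 19483, 5148, 8861, 3870, 7327, 1185, 162, 163, 164]) e) (n (l [42684, 137277]) e)) (n (n (l [1592, 441]) e) (n (l [6976]) e)))) (n (n (n (n (l [150, 280, 281]) e) (n (l [33468, 73021]) e)) (n (n (l [15410, 1075, 2612, 11061, 2486, 19127]) e) e)) (n (n (n (l [52907, 239020, 7981,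 2222, 943, 305]) e) (n (l [1598]) e)) (n (n (l [185]) e) e))))) (n (n (n (n (n (n (l [263, 264, 138]) e) (n (l [32312, 3257, 570]) e)) (n (n (l [89771, 381612, 9517, 5038, 3503, 1456]) e) (n (l [190, 447]) e))) (n (n (n (l [282, 5659, 412, 541, 286, 4127]) e) (n (l [19644, 34493]) e)) (n (n (l [4018, 19123, 4532, 1333, 2230, 10423]) e) (n (l [576]) e)))) (n (n (n (n (l [150, 279, 281]) e) (n (l [23740, 4797]) e)) (n (n (l [25643, 67116, 3373, 5934, 176]) e) e)) (n (n (n (l [1445, 422, 1063, 296, 809, 298]) e) (n (l [1086]) e)) (n (n (l [2488, 825]) e) e)))) (n (n (n (n (n (l [270, 273, 148]) e) (n (l [6072, 314, 187]) e)) (n (n (l [6187, 17964, 2861, 3630]) e) e)) (n (n (n (l [165, 297, 298]) e) (n (l [702]) e)) (n (n (l [1592, 185]) e) (n (l [36416]) e)))) (n (n (n (n (l [410, 795, 412, 286, 415, 1569, 419]) e) (n (l [27836, 32061]) e)) (n (n (l [7090, 32179, 1076, 11061, 2230, 28343]) e) e)) (n (n (n (l [47787, 199340, 4397,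 3758, 431]) e) (n (l [7230, 191]) e)) (n (n (l [312, 185]) e) e))))))

def r3 : Tr (List ℕ) := (n (n (n (n (n (n (n (l [266]) e) e) e) (n (n e (n (l [2622, 1215]) e)) (n (n (l [12984, 6713, 698]) e) e))) (n (n e (n e (n (l [576]) e))) (n (n (n (l [13355, 59692, 2605, 1070, 815, 176, 561]) e) e) e))) (n (n (n (n (n (l [142, 274, 276]) e) e) (n e (n (l [1088]) e))) (n (n e (n (l [22590, 1215]) e)) e)) (n (n (n (n (l [1306, 20891, 2460, 7453, 3486, 4639, 544, 801, 162, 547, 292]) e) (n (l [49726, 959]) e)) (n (n (l [10040, 2105, 698]) e) (n (l [2624]) e))) e))) (n (n (n e (n (n e (n (l [30270, 703]) e)) (n (n (l [81464, 26041, 1978, 315]) e) e))) (n (n (n (n (l [154, 13595, 4124, 4509, 3614, 5535, 288, 1441, 163, 164]) e) (n (l [11838, 959]) e)) (n e (n (l [576]) e))) (n (n (n (l [51755, 229676, 6061, 3630, 1327, 688]) e) e) e))) (n (n (n e (n e (n (l [960]) e))) (n (n (n (l [5163, 54060, 1581, 1966, 815, 176, 561]) e) e) e))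 (n (n (n e (n (l [24126, 959]) e)) (n (n (l [40888, 16953, 570, 187]) e) (n (l [1088]) e))) e))))

def r4 : Tr (List ℕ) := (n (n (n (n (n (n (n (l [265]) e) e) e) (n (n e (n (l [23870]) e)) (n (n (l [55736, 17721]) e) e))) (n (n e (n e (n (l [576]) e))) (n (n (n (l [11051, 38444, 6829, 174, 559]) e) e) e))) (n (n (n (n (n (l [272, 275, 149]) e) e) e) (n (n e (n (l [1854]) e)) e)) (n (n (n (n (l [1562, 2203, 1436, 1821, 158, 1823, 1312, 417, 546]) e) (n (l [15678]) e)) (n (n (l [8120, 3897]) e) (n (l [448]) e))) e))) (n (n (n e (n (n e (n (l [12606]) e)) (n (n (l [46904, 10681, 186]) e) e))) (n (n (n (n (l [3354, 5915, 540, 4893, 3230, 4895, 1184, 545, 418]) e) (n (l [14654]) e)) (n e (n (l [448]) e))) (n (n (n (l [2731, 2092, 2093, 1966, 175]) e) e) e))) (n (n e (n (n (n (l [5931, 32812, 4781, 174, 559]) e) e) e)) (n (n (n e (n (l [12606]) e)) (n (n (l [76472, 23609, 314]) e) e)) e))))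

def r5 : Tr (List ℕ) := (n (n (n (n (n (n (n (l [268]) e) (n (l [23998]) e)) (n (n (l [75320, 26809]) e) (n (l [21184]) e))) (n (n (n (l [40619, 192172, 3501, 1454, 303]) e) e) (n (n (l [43196, 123197]) e) e))) (n (n (n (n (l [6170, 18203, 2588, 1053, 1310, 2335, 416, 289, 162]) e) (n (l [23614, 959]) e)) (n (n (l [98104, 20409, 698]) e) e)) (n (n (n (l [73394, 110003, 12212, 6069, 1206, 24759]) e) (n (l [192]) e)) (n (n (l [1982]) e) e)))) (n (n (n (n (n (l [150, 535, 152, 281]) e) (n (l [21054, 319]) e)) (n (n (l [6712, 1337]) e) e)) (n (n (n (l [7339, 47020, 5549, 558, 1327, 432, 305]) e) e) (n (n (l [958]) e) e))) (n (n (n (n (l [421, 296, 297, 298]) e) e) (n (n (l [35516, 58685]) e) e)) (n (n (n (l [102968, 25273, 954, 571]) e) (n (l [1472]) e)) (n (n (l [1982]) e) e))))) (n (n (n (n (n (n (l [270, 273, 146, 275, 148]) e) (n (l [36286, 575]) e)) (n (n (l [199992, 4025, 4922, 187]) e) (n (l [1728]) e))) (n (n (n (l [2091,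 21420, 6957, 3630]) e) e) (n (n (l [26812, 19133]) e) e))) (n (n (n (n (l [421, 166, 168, 553, 810]) e) e) (n (n (l [10680, 6457, 314]) e) e)) (n (n (n (l [9138, 36531, 5172, 11061, 2230, 32951]) e) (n (l [448]) e)) (n (n (l [1086]) e) e)))) (n (n (n (n (n (l [8218, 2075, 5020, 3357, 2206, 4127, 800, 2337, 802, 291]) e) (n (l [25662, 959]) e)) (n (n (l [47032, 17209]) e) e)) (n (n (n (l [55986, 79283, 11188, 6581, 1462, 12471]) e) (n (l [832]) e)) (n (n (l [446]) e) e))) (n (n (n (n (l [80555, 325548, 2861, 5550, 1967, 1456, 689]) e) e) (n (n (l [58044, 251709]) e) e)) (n (n (n (l [69432, 10169, 826]) e) (n (l [6592]) e)) e)))))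

def r6 : Tr (List ℕ) := (n (n (n (n (n (n (n (l [269]) e) (n (l [26046, 319]) e)) (n (n (l [43064, 16057]) e) (n (l [15040]) e))) (n (n (n (l [25771, 124844, 6189, 302, 687, 176]) e) e) (n (n (l [26300, 23101]) e) e))) (n (n (n (n (l [1946, 10267, 1564, 5789, 2846, 2975, 800, 161, 290]) e) (n (l [78910, 447]) e)) (n (n (l [111672, 18873, 442, 187]) e) e)) (n (n (n (l [48562, 101299, 6580, 4405, 1974, 42679]) e) (n (l [192]) e)) e))) (n (n (n (n (n (l [150, 279, 281]) e) (n (l [29246]) e)) (n (n (l [57400, 13497]) e) e)) (n (n (n (l [683, 42412, 5677, 1838, 815, 688]) e) e) (n (n (l [958]) e) e))) (n (n (n (n (l [1061, 550, 679, 168, 169]) e) e) (n (n (l [18620, 35261]) e) e)) (n (n (n (l [165944, 32185, 1082, 187]) e) (n (l [448]) e)) (n (n (l [1982]) e) e))))) (n (n (n (n (n (n (l [271, 273, 274, 147, 148]) e) (n (l [40382, 575]) e)) (n (n (l [202552, 8889, 2874]) e) (n (l [3776]) e))) (n (n (n (l [4139, 23596, 173, 1582])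 e) e) (n (n (l [24252, 1469]) e) e))) (n (n (n (n (l [1189, 422, 807, 809, 554]) e) e) (n (n (l [48440, 12217]) e) e)) (n (n (n (l [1074, 17843, 3124, 13109, 2230, 26295]) e) (n (l [960]) e)) e))) (n (n (n (n (n (l [3994, 17051, 1436, 4381, 1950, 2335, 160, 2337, 418, 419, 292]) e) (n (l [28734, 959]) e)) (n (n (l [3640, 2361]) e) e)) (n (n (n (l [20914, 59315, 2484, 11061, 2230, 36535]) e) (n (l [832]) e)) (n (n (l [446]) e) e))) (n (n (n (n (l [88747, 361388, 7981, 5550, 4015, 1456, 305]) e) e) (n (n (l [35004, 93245]) e) e)) (n (n (n (l [126264, 27065, 186]) e) (n (l [8128]) e)) (n (n (l [1086]) e) e))))))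

def r7 : Tr (List ℕ) := (n (n (n (n (n (n (n (l [270]) e) e) e) (n (n e (n (l [37312]) e)) (n (n (l [2622, 319]) e) e))) (n e (n (n (n (l [66744, 30777, 826, 443]) e) e) e))) (n (n (n (n (n (l [3482, 795, 4636, 4509, 1566, 4511, 416, 1697, 930, 419, 164]) e) e) e) (n (n e (n (l [55744]) e)) e)) (n (n (n (n (l [32427, 150444, 6701, 3246, 175, 304]) e) (n (l [54720]) e)) (n (n (l [1086, 319]) e) e)) e))) (n (n (n e (n (n e (n (l [28608]) e)) (n (n (l [34238, 319]) e) e))) (n (n (n (n (l [21163, 53932, 2989, 4782, 303, 304, 177]) e) (n (l [33728]) e)) e) (n (n (n (l [1464, 1977, 2490, 315]) e) e) e))) (n (n e (n (n (n (l [55480, 27705, 826, 443]) e) e) e)) (n (n (n e (n (l [42944]) e)) (n (n (l [13374, 319]) e) e)) e))))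

def r8 : Tr (List ℕ) := (n (n (n (n (n (n (n (l [277]) e) e) e) (n (n e (n (l [24768]) e)) (n (n (l [7998]) e) e))) (n e (n (n (n (l [44856, 20409, 442]) e) e) e))) (n (n (n (n (n (l [1690, 4379, 540, 1437, 2590, 1183, 1056, 417, 546]) e) e) e) (n (n e (n (l [832]) e)) e)) (n (n (n (n (l [20395, 83884, 7725, 2478, 175, 304]) e) (n (l [8384]) e)) (n (n (l [14014]) e) e)) e))) (n (n (n e (n (n e (n (l [23232]) e)) (n (n (l [28862, 191]) e) e))) (n (n (n (n (l [30763, 72236, 3373, 7982, 176]) e) (n (l [19136]) e)) e) (n (n (n (l [14136, 1977]) e) e) e))) (n (n e (n (n (n (l [28472, 11193, 442]) e) e) e)) (n (n (n e (n (l [9920]) e)) (n (n (l [18750, 319]) e) e)) e))))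

def r9 : Tr (List ℕ) := (n (n (n (n (n (n (n (l [272]) e) e) e) (n (n e (n (l [3648]) e)) (n (n (l [11710]) e) e))) (n e (n (n (n (l [53688, 21817]) e) e) e))) (n (n (n (n (n (l [539, 412, 1565, 1694, 2079]) e) e) e) (n (n e (n (l [10688]) e)) e)) (n (n (n (n (l [7979, 10540, 813, 302]) e) (n (l [17856]) e)) (n (n (l [7102]) e) e)) e))) (n (n (n e (n e (n (n (l [2622]) e) e))) (n (n (n (n (l [171, 17580, 1197, 3758]) e) (n (l [7232]) e)) e) (n (n (n (l [33720, 12089]) e) e) e))) (n (n e (n (n (n (l [48568, 18745]) e) e) e)) (n (n e (n (n (l [41918]) e) e)) e))))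

def r10 : Tr (List ℕ) := (n (n (n (n (n (n (n (l [274]) e) e) e) (n (n e (n (l [45504]) e)) (n (n (l [2494]) e) e))) (n e (n (n (n (l [13624, 10681, 698]) e) e) e))) (n (n (n (n (n (l [3738, 4251, 3100, 157, 1310, 2719, 673, 418, 163]) e) e) e) (n (n e (n (l [20928]) e)) e)) (n (n (n (n (l [27563, 99756, 9517, 3758, 943, 304, 305]) e) (n (l [17856]) e)) (n (n (l [24510]) e) e)) e))) (n (n (n e (n (n e (n (l [42944]) e)) (n (n (l [43454, 191]) e) e))) (n (n (n (n (l [27179, 79916, 941, 7214, 303, 176, 177]) e) (n (l [46016]) e)) e) (n (n (n (l [30520, 6073, 698]) e) e) e))) (n (n e (n (n (n (l [9528, 4537, 698]) e) e) e)) (n (n (n e (n (l [33728]) e)) (n (n (l [22590, 319]) e) e)) e))))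

def r11 : Tr (List ℕ) := (n (n (n (n (n (n (n (l [278]) e) (n (l [37184]) e)) (n (n (l [17854]) e) e)) (n (n (n (l [49976, 1082]) e) e) e)) (n (n (n (n (l [43691, 220076, 4141, 942, 175]) e) (n (l [102848]) e)) (n (n (l [40894, 1471]) e) e)) (n (n (n (l [44220, 141373]) e) e) (n (n (l [2240]) e) e)))) (n (n (n (n (n (l [549, 294, 423, 168, 298]) e) (n (l [50112]) e)) (n (n (l [17854]) e) e)) (n (n (n (l [93240, 14009]) e) e) (n (n (l [576]) e) e))) (n (n (n (n (l [53938, 47795, 22452, 23477, 1206, 27959]) e) e) e) (n (n (n (l [97726, 1215]) e) e) (n (n (l [576]) e) e))))) (n (n (n (n (n (n (l [11290, 14875, 2972, 541, 542, 2847, 160, 2337, 546, 163]) e) (n (l [43584]) e)) (n (n (l [281022, 4415]) e) e)) (n (n (n (l [4024, 825]) e) e) e)) (n (n (n (n (l [4530, 10931, 436, 3381, 1974, 9399]) e) e) (n (n (l [9406]) e) e)) (n (n (n (l [39612, 121149]) e) e) e))) (n (n (n (n (n (l [121515, 485036, 9773, 10414, 3759, 944, 945])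 e) (n (l [35520]) e)) (n (n (l [6206]) e) e)) (n (n (n (l [41148, 116029]) e) e) (n (n (l [1088]) e) e))) (n (n (n (n (l [216632, 3513, 7738, 443]) e) e) e) (n (n (n (l [74174, 447]) e) e) (n (n (l [1216]) e) e))))))

def r12 : Tr (List ℕ) := (n (n (n (n (n (n (n (l [280]) e) (n (l [43328]) e)) (n (n (l [25022]) e) e)) (n (n (n (l [83256, 11705, 1082]) e) e) e)) (n (n (n (n (l [48299, 223148, 2733, 3246, 559]) e) (n (l [95168]) e)) (n (n (l [43966, 703]) e) e)) (n (n (n (l [47292, 166717]) e) e) (n (n (l [1728]) e) e)))) (n (n (n (n (n (l [677, 166, 295, 553, 554]) e) (n (l [55744]) e)) (n (n (l [5566]) e) e)) (n (n (n (l [114232, 22713]) e) e) (n (n (l [576]) e) e))) (n (n (n (n (l [33970, 22963, 15796, 14773, 1462, 23351]) e) e) e) (n (n (n (l [104894, 447]) e) e) (n (n (l [2112]) e) e))))) (n (n (n (n (n (n (l [17434, 16667, 7068, 7965, 2462, 9503, 544, 3105, 1314, 547]) e) (n (l [44608]) e)) (n (n (l [262590, 5183]) e)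 e)) (n (n (n (l [13752, 4409]) e) e) e)) (n (n (n (n (l [1074, 17843, 3124, 13109, 2230, 26295]) e) e) (n (n (l [2878]) e) e)) (n (n (n (l [42684, 128061]) e) e) (n (n (l [576]) e) e)))) (n (n (n (n (n (l [121515, 486572, 5933, 8110, 2991, 944, 945]) e) (n (l [41664]) e)) (n (n (l [20542]) e) e)) (n (n (n (l [44220, 135229]) e) e) (n (n (l [1088]) e) e))) (n (n (n (n (l [213048, 16057, 4666, 315]) e) e) e) (n (n (n (l [73150, 319]) e) e) (n (n (l [704]) e) e))))))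

def r13 : Tr (List ℕ) := (n (n (n (n (n (n (n (l [281]) e) (n (l [28992]) e)) (n (n (l [14270]) e) e)) (n (n (n (l [123192, 26041]) e) e) e)) (n (n (n (n (l [23723, 147116, 11821, 814, 1199, 176]) e) (n (l [68544]) e)) (n (n (l [59838, 1215]) e) e)) (n (n (n (l [46780, 173117]) e) e) (n (n (l [704]) e) e)))) (n (n (n (n (n (l [168, 297, 298]) e) (n (l [35264]) e)) (n (n (l [8126]) e) e)) (n (n (n (l [110904, 18617, 314, 187]) e) e) (n (n (l [576]) e) e))) (n (n (n (n (l [46514, 69811, 17844, 12469, 1718, 2231]) e) e) e) (n (n (n (l [83902, 191]) e) e) (n (n (l [1984]) e) e))))) (n (n (n (n (n (n (l [4762, 4763, 1052, 925, 798, 1184, 2337, 674, 931, 292]) e) (n (l [38464]) e)) (n (n (l [357310, 4415]) e) e)) (n (n (n (l [41528, 10937]) e) e) e)) (n (n (n (n (l [32178, 45491, 9652, 8373, 1718, 2743]) e) e) (n (n (l [4414, 319]) e) e)) (n (n (n (l [27836, 47421]) e) e) (n (n (l [1472]) e) e)))) (n (n (n (n (n (l [121515, 515244,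 15917, 7342, 5807, 944]) e) (n (l [29376]) e)) (n (n (l [17982]) e) e)) (n (n (n (l [35516, 88381]) e) e) (n (n (l [1088]) e) e))) (n (n (n (n (l [207928, 5305, 5690, 187]) e) e) e) (n (n (n (l [76734, 191]) e) e) (n (n (l [704]) e) e))))))

def r14 : Tr (List ℕ) := (n (n (n (n (n (n (n (l [3738, 1307, 4380, 4509, 1566, 4767, 672, 673, 674, 675]) e) e) e) (n e (n (n (l [9664]) e) e))) (n e (n (n (n (l [958, 1087]) e) e) e))) (n (n (n (n (n (l [22187, 74156, 1453, 4270, 815, 304, 433]) e) e) e) e) (n (n (n (n (l [50104, 31289, 3642, 699]) e) e) (n (n (l [3008]) e) e)) e))) (n (n (n e (n e (n (n (l [6592]) e) e))) (n (n (n (n (l [10936, 7865, 2746, 827]) e) e) e) (n (n (n (l [17982, 319]) e) e) e))) (n (n e (n (n (n (l [21054, 1087]) e) e) e)) (n (n e (n (n (l [576]) e) e)) e))))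

def r15 : Tr (List ℕ) := (n (n (n (n (n (n (n (l [155, 156, 541, 543, 1312, 417, 546]) e) e) e) (n e (n (n (l [17856]) e) e))) (n e (n (n (n (l [6206, 447]) e) e) e))) (n (n (n (n (n (l [17067, 30636, 429, 4270, 175, 304]) e) e) e) e) (n (n (n (n (l [14776, 7481]) e) e) (n (n (l [5056]) e) e)) e))) (n (n (n e (n e (n (n (l [7744]) e) e))) (n (n (n (n (l [184, 569, 186]) e) e) e) (n (n (n (l [19006, 319]) e) e) e))) (n (n e (n (n (n (l [26174, 447]) e) e) e)) (n (n e (n (n (l [19904]) e) e)) e))))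

def r16 : Tr (List ℕ) := (n (n (n (n (n (n (n (l [1818, 3611, 1692, 1821, 5407]) e) e) e) (n e (n (n (l [17856]) e) e))) (n e (n (n (n (l [35774]) e) e) e))) (n (n (n (n (n (l [1835, 23212, 1837, 1710]) e) e) e) e) (n (n (n (n (l [10680, 5433]) e) e) (n (n (l [7104]) e) e)) e))) (n (n (n e (n e (n (n (l [3648]) e) e))) (n (n (n (n (l [10680, 5433]) e) e) e) (n (n (n (l [25022]) e) e) e))) (n (n e (n (n (n (l [17854]) e) e) e)) (n (n e (n (n (l [17856]) e) e)) e))))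

def r17 : Tr (List ℕ) := (n (n (n (n (n (n (n (l [157, 286, 287, 544, 417, 418, 291]) e) e) e) (n e (n (n (l [47552]) e) e))) (n e (n (n (n (l [69182, 2495]) e) e) e))) (n (n (n (n (n (l [82475, 322860, 4525, 6702, 2863, 1200]) e) e) e) e) (n (n (n (n (l [61496, 20409, 2490, 315]) e) e) (n (n (l [36800]) e) e)) e))) (n (n (n e (n e (n (n (l [3648]) e) e))) (n (n (n (n (l [27320, 10041, 698, 187]) e) e) e) (n (n (n (l [83006, 1215]) e) e) e))) (n (n e (n (n (n (l [65598, 2495]) e) e) e)) (n (n e (n (n (l [71104]) e) e)) e))))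

def r18 : Tr (List ℕ) := (n (n (n (n (n (n (n (l [794, 1435, 2588, 1181, 2975]) e) e) e) (n e (n (n (l [15936]) e) e))) (n e (n (n (n (l [14398]) e) e) e))) (n (n (n (n (n (l [6699, 18476, 1197, 3118]) e) e) e) e) (n (n (n (n (l [8760, 4281]) e) e) (n (n (l [12352]) e) e)) e))) (n (n (n e (n e (n (n (l [4544]) e) e))) (n (n (n (n (l [54840, 20665]) e) e) e) (n (n (n (l [446]) e) e) e))) (n (n e (n (n (n (l [6718]) e) e) e)) (n (n e (n (n (l [29248]) e) e)) e))))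

def r19 : Tr (List ℕ) := (n (n (n (n (n (n (n (l [1818, 539, 3100, 157, 1439]) e) e) e) (n e (n (n (l [11840]) e) e))) (n e (n (n (n (l [22078]) e) e) e))) (n (n (n (n (n (l [9259, 28716, 173, 3630]) e) e) e) e) (n (n (n (n (l [8760, 4281]) e) e) (n (n (l [14400]) e) e)) e))) (n (n (n e (n e (n (n (l [2496]) e) e))) (n (n (n (n (l [73272, 26809]) e) e) e) (n (n (n (l [7230]) e) e) e))) (n (n e (n (n (n (l [18494]) e) e) e)) (n (n e (n (n (l [31296]) e) e)) e))))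

def r20 : Tr (List ℕ) := (n (n (n (n (n (n (n (l [282, 155, 284, 157, 286, 673, 418, 163]) e) e) e) (n e (n (n (l [31168]) e) e))) (n e (n (n (n (l [37438, 703]) e) e) e))) (n (n (n (n (n (l [31019, 142636, 5293, 686, 2095, 432, 433]) e) e) e) e) (n (n (n (n (l [35256, 20025, 1082, 187]) e) e) (n (n (l [21440]) e) e)) e))) (n (n (n e (n e (n (n (l [2624]) e) e))) (n (n (n (n (l [32440, 6969, 1722, 315]) e) e) e) (n (n (n (l [52286, 447]) e) e) e))) (n (n e (n (n (n (l [51262, 703]) e) e) e)) (n (n e (n (n (l [45504]) e) e)) e))))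

def r21 : Tr (List ℕ) := (n (n (n (n (n (n (n (l [1178, 1051, 1820, 3485, 1822, 671]) e) e) e) (n e (n (n (l [1600]) e) e))) (n e (n (n (n (l [2366]) e) e) e))) (n (n (n (n (n (l [8747, 2220, 1581, 3886, 303]) e) e) e) e) (n (n (n (n (l [25400, 10169, 186]) e) e) (n (n (l [7232]) e) e)) e))) (n (n (n e (n e (n (n (l [3520]) e) e))) (n (n (n (n (l [60728, 21945, 314]) e) e) e) (n (n (n (l [4286]) e) e) e))) (n (n e (n (n (n (l [4926]) e) e) e)) (n (n e (n (n (l [25152]) e) e)) e))))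

def r22 : Tr (List ℕ) := (n (n (n (n (n (n (n (l [293]) e) e) (n (n (l [7104]) e) e)) (n (n (n (l [53182, 447]) e) e) e)) (n (n (n (n (l [70456, 4025, 1082]) e) e) (n (n (l [12864]) e) e)) e)) (n (n (n (n (n (l [32690, 29875, 10676, 11445, 1462, 11063]) e) e) (n (n (l [33856]) e) e)) (n (n (n (l [21950, 1471]) e) e) e)) (n (n (n (n (l [28348, 19005]) e) e) e) (n (n (n (l [64576]) e) e) e)))) (n (n (n (n (n (n (l [116907, 477356, 10541, 11182, 4527, 944, 945]) e) e) (n (n (l [301120]) e) e)) (n (n (n (l [12734]) e) e) e)) (n (n (n (n (l [32956, 68669]) e) e) (n (n (l [15168]) e) e)) e)) (n (n (n (n (n (l [218680, 1465, 7738, 443]) e) e) (n (n (l [7744]) e) e)) e) (n (n (n (n (l [322494, 3647]) e) e) e) (n (n (n (l [53312]) e) e) e)))))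

def r23 : Tr (List ℕ) := (n (n (n (n (n (n (n (l [298]) e) e) (n (n (l [10816]) e) e)) (n (n (n (l [75198, 191]) e) e) e)) (n (n (n (n (l [48952, 1594]) e) e) (n (n (l [53312]) e) e)) e)) (n (n (n (n (n (l [18866, 29875, 5429, 1718, 16567]) e) e) (n (n (l [12864]) e) e)) (n (n (n (l [27582, 1215]) e) e) e)) (n (n (n (n (l [35004, 46397]) e) e) e) (n (n (n (l [92736]) e) e) e)))) (n (n (n (n (n (n (l [112299, 471212, 7725, 9390, 2735, 944, 1457]) e) e) (n (n (l [343616]) e) e)) (n (n (n (l [5054]) e) e) e)) (n (n (n (n (l [45756, 154429]) e) e) (n (n (l [704]) e) e)) e)) (n (n (n (n (n (l [161336, 10553, 7226, 187]) e) e) (n (n (l [15296]) e) e)) e) (n (n (n (n (l [263614, 4415]) e) e) e) (n (n (n (l [71232]) e) e) e)))))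

def r24 : Tr (List ℕ) := (n (n (n (n (n (n (n (l [295]) e) e) e) (n (n (n (l [53694, 319]) e) e) e)) (n (n (n (n (l [64312, 4025, 1082]) e) e) (n (n (l [28224]) e) e)) e)) (n (n (n (n (n (l [18866, 22451, 5044, 309, 1718, 3767]) e) e) (n (n (l [27712]) e) e)) (n (n (n (l [26558, 703]) e) e) e)) (n (n (n (n (l [28348, 19005]) e) e) e) (n (n (n (l [79936]) e) e) e)))) (n (n (n (n (n (n (l [118443, 485036, 6701, 10414, 3759, 944, 945]) e) e) (n (n (l [303168]) e) e)) (n (n (n (l [958]) e) e) e)) (n (n (n (n (l [32956, 68669]) e) e) (n (n (l [12096]) e) e)) e)) (n (n (n (n (n (l [175672, 2233, 4666, 315]) e) e) (n (n (l [448]) e) e)) e) (n (n (n (n (l [306622, 4415]) e) e) e) (n (n (n (l [58432]) e) e) e)))))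

def r25 : Tr (List ℕ) := (n (n (n (n (n (n (n (l [297]) e) e) e) (n (n (n (l [53694]) e) e) e)) (n (n (n (n (l [165944, 37561, 186]) e) e) (n (n (l [576]) e) e)) e)) (n (n (n (n (n (l [40370, 59827, 11700, 10421, 1718, 4791]) e) e) (n (n (l [32832]) e) e)) (n (n (n (l [36798, 959]) e) e) e)) (n (n (n (n (l [28348, 42557]) e) e) e) (n (n (n (l [65600]) e) e) e)))) (n (n (n (n (n (n (l [121003, 483244, 11309, 8366, 6319, 944, 305]) e) e) (n (n (l [252992]) e) e)) (n (n (n (l [1086]) e) e) e)) (n (n (n (n (l [35004, 93245]) e) e) (n (n (l [21312]) e) e)) e)) (n (n (n (n (n (l [279352, 28345, 4410]) e) e) (n (n (l [10816]) e) e)) e) (n (n (n (n (l [361918, 4415]) e) e) e) (n (n (n (l [52288]) e) e) e)))))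

def r26 : Tr (List ℕ) := (n (n (n (n (n (n (n (l [556]) e) e) e) e) (n e (n (n (n (l [576]) e) e) e))) (n (n (n (n (n (l [1592, 441]) e) e) e) e) (n (n (n (n (l [574]) e) e) e) e))) (n (n e (n (n (n (n (l [574]) e) e) e) (n (n (n (l [576]) e) e) e))) (n (n e (n (n (n (l [576]) e) e) e)) e)))

def r27 : Tr (List ℕ) := (n (n (n (n (n (n (n (l [428]) e) e) e) e) (n e (n (n (n (l [448]) e) e) e))) (n (n (n (n (n (l [1464, 569]) e) e) e) e) (n (n (n (n (l [446]) e) e) e) e))) (n (n e (n (n (n (n (l [446]) e) e) e) (n (n (n (l [448]) e) e) e))) (n (n e (n (n (n (l [448]) e) e) e)) e)))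

def r28 : Tr (List ℕ) := (n (n (n (n (n (n (n (l [555, 2860, 301]) e) e) e) e) (n e (n (n (n (l [1856]) e) e) e))) (n (n (n (n (n (l [5944, 1977]) e) e) e) e) (n (n (n (n (l [1854]) e) e) e) e))) (n (n e (n (n (n (n (l [1342]) e) e) e) (n (n (n (l [2368]) e) e) e))) (n (n e (n (n (n (l [1856]) e) e) e)) e)))

def r29 : Tr (List ℕ) := (n (n (n (n (n (n (n (l [939, 4012, 301]) e) e) e) e) (n e (n (n (n (l [448]) e) e) e))) (n (n (n (n (n (l [952, 313]) e) e) e) e) (n (n (n (n (l [446]) e) e) e) e))) (n (n e (n (n (n (n (l [2110]) e) e) e) e)) (n (n e (n (n (n (l [448]) e) e) e)) e)))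

def r30 : Tr (List ℕ) := (n (n (n (n (n (n (n (l [1195, 5804, 813, 302]) e) e) e) e) (n e (n (n (n (l [1088]) e) e) e))) (n (n (n (n (n (l [4664, 1721]) e) e) e) e) (n (n (n (n (l [1086]) e) e) e) e))) (n (n e (n (n (n (n (l [5694]) e) e) e) (n (n (n (l [1600]) e) e) e))) e))

def r31 : Tr (List ℕ) := (n (n (n (n (n (n (n (l [555, 812, 301]) e) e) e) e) (n e (n (n (n (l [192]) e) e) e))) (n (n (n (n (n (l [1848, 441]) e) e) e) e) (n (n (n (n (l [830]) e) e) e) e))) (n (n e (n (n (n (n (l [1726]) e) e) e) (n (n (n (l [320]) e) e) e))) (n (n e (n (n (n (l [192]) e) e) e)) e)))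

def r32 : Tr (List ℕ) := (n (n (n (n (n (n (n (l [5035, 28844, 2349, 174, 175]) e) e) e) e) (n e (n (n (n (l [15040]) e) e) e))) (n (n (n (n (n (l [4408, 1209, 442]) e) e) e) e) (n (n (n (n (l [9918, 191]) e) e) e) e))) (n (n e (n (n (n (n (l [4798, 319]) e) e) e) (n (n (n (l [12992]) e) e) e))) (n (n e (n (n (n (l [15040]) e) e) e)) e)))

def r33 : Tr (List ℕ) := (n (n (n (n (n (n (n (l [6571, 29100, 557]) e) e) e) e) (n e (n (n (n (l [4032]) e) e) e))) (n (n (n (n (n (l [7480, 2745, 186]) e) e) e) e) (n (n (n (n (l [3006]) e) e) e) e))) (n (n e (n (n (n (n (l [7230]) e) e) e) (n (n (n (l [3008]) e) e) e))) (n (n e (n (n (n (l [4032]) e) e) e)) e)))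

def r34 : Tr (List ℕ) := (n (n (n (n (n (n (n (l [8491, 46380, 1965, 303]) e) e) e) e) (n e (n (n (n (l [23616]) e) e) e))) (n (n (n (n (n (l [4920, 1465, 826]) e) e) e) e) (n (n (n (n (l [18494, 319]) e) e) e) e))) (n (n e (n (n (n (n (l [2622, 191]) e) e) e) (n (n (n (l [23104]) e) e) e))) (n (n e (n (n (n (l [24640]) e) e) e)) e)))

def r35 : Tr (List ℕ) := (n (n (n (n (n (n (n (l [5419, 34348, 3245, 1070, 303]) e) e) e) e) (n e (n (n (n (l [16192]) e) e) e))) (n (n (n (n (n (l [11576, 5305]) e) e) e) e) (n (n (n (n (l [2878]) e) e) e) e))) (n (n e (n (n (n (n (l [21310]) e) e) e) (n (n (n (l [6976]) e) e) e))) (n (n e (n (n (n (l [13120]) e) e) e)) e)))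

def r36 : Tr (List ℕ) := (n (n (n (n (n (n (n (l [54571, 205100, 1581, 3886, 175, 176, 177]) e) e) e) e) (n e (n (n (n (l [31808]) e) e) e))) (n (n (n (n (n (l [3384, 3897, 2362, 187]) e) e) e) e) (n (n (n (n (l [20542, 703]) e) e) e) e))) (n (n e (n (n (n (n (l [20926, 319]) e) e) e) (n (n (n (l [17984]) e) e) e))) (n (n e (n (n (n (l [18496]) e) e) e)) e)))

def r37 : Tr (List ℕ) := (n (n (n (n (n (n (n (l [29106, 38579, 11956, 8117, 1462, 2999]) e) e) e) (n (n (n (l [72512]) e) e) e)) (n (n (n (n (l [74942, 447]) e) e) e) e)) (n (n (n (n (n (l [25788, 20797]) e) e) e) (n (n (n (l [58944]) e) e) e)) e)) (n (n (n (n (n (n (l [181560, 9529, 8762, 443]) e) e) e) (n (n (n (l [576]) e) e) e)) e) (n (n (n (n (n (l [367038, 4671]) e) e) e) e) (n (n (n (n (l [336960]) e) e) e) e))))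

def r38 : Tr (List ℕ) := (n (n (n (n (n (n (n (l [5682, 563, 692, 1973, 2230, 1207]) e) e) e) (n (n (n (l [63808]) e) e) e)) (n (n (n (n (l [90814, 1087]) e) e) e) e)) (n (n (n (n (n (l [35516, 92477]) e) e) e) (n (n (n (l [60480]) e) e) e)) e)) (n (n (n (n (n (n (l [220728, 31673, 1850, 1083]) e) e) e) (n (n (n (l [1088]) e) e) e)) e) (n (n (n (n (n (l [352190, 6975]) e) e) e) e) (n (n (n (n (l [351808]) e) e) e) e))))

def r39 : Tr (List ℕ) := (n (n (n (n (n (n (n (l [11954, 20659, 5044, 4533, 1718, 6071]) e) e) e) (n (n (n (l [68416]) e) e) e)) (n (n (n (n (l [81086, 319]) e) e) e) e)) (n (n (n (n (n (l [25788, 18749]) e) e) e) (n (n (n (l [62016]) e) e) e)) e)) (n (n (n (n (n (n (l [156984, 2617, 5690, 315]) e) e) e) (n (n (n (l [448]) e) e) e)) e) (n (n (n (n (n (l [358846, 5439]) e) e) e) e) (n (n (n (n (l [348224]) e) e) e) e))))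

def r40 : Tr (List ℕ) := (n (n (n (n (n (n (n (l [3506, 947, 3764, 1461, 1718, 1463]) e) e) e) (n (n (n (l [75072]) e) e) e)) (n (n (n (n (l [82622, 191]) e) e) e) e)) (n (n (n (n (n (l [27324, 15677]) e) e) e) (n (n (n (l [77888]) e) e) e)) e)) (n (n (n (n (n (n (l [196920, 8250, 187]) e) e) e) (n (n (n (l [960]) e) e) e)) e) (n (n (n (n (n (l [337854, 5439]) e) e) e) e) (n (n (n (n (l [392768]) e) e) e) e))))

def r41 : Tr (List ℕ) := (n (n (n (n (n (n (n (l [41138, 61875, 18100, 10933, 1718, 2743]) e) e) e) (n (n (n (l [73536]) e) e) e)) (n (n (n (n (l [74942]) e) e) e) e)) (n (n (n (n (n (l [31932, 82237]) e) e) e) (n (n (n (l [41536]) e) e) e)) e)) (n (n (n (n (n (n (l [272952, 26553, 5434]) e) e) e) (n (n (n (l [10816]) e) e) e)) e) (n (n (n (n (n (l [407998, 5439]) e) e) e) e) (n (n (n (n (l [283712]) e) e) e) e))))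

def r42 : Tr (List ℕ) := (n (n (n (n (n (n (n (l [690, 5427, 1460, 949, 1718, 1079]) e) e) e) (n (n (n (l [72512]) e) e) e)) (n (n (n (n (l [89790, 191]) e) e) e) e)) (n (n (n (n (n (l [34492, 65597]) e) e) e) (n (n (n (l [76352]) e) e) e)) e)) (n (n (n (n (n (n (l [144184, 13881, 8250, 187]) e) e) e) (n (n (n (l [4544]) e) e) e)) e) (n (n (n (n (n (l [303038, 5439]) e) e) e) e) (n (n (n (n (l [401472]) e) e) e) e))))

def r43 : Tr (List ℕ) := (n (n e (n (n (n (n (n (l [1214]) e) e) e) e) e)) e)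

def r44 : Tr (List ℕ) := (n (n e (n (n (n (n (n (l [318]) e) e) e) e) e)) e)

def r45 : Tr (List ℕ) := (n (n (n (n (n (n (n (l [1080, 185]) e) e) e) e) e) (n (n (n (n (n (l [574]) e) e) e) e) (n (n (n (n (l [448]) e) e) e) e))) (n (n e (n (n (n (n (l [576]) e) e) e) e)) e))

def r46 : Tr (List ℕ) := (n (n (n (n (n (n (n (l [1080, 441]) e) e) e) e) e) (n (n (n (n (n (l [2110]) e) e) e) e) e)) (n (n e (n (n (n (n (l [1088]) e) e) e) e)) e))

def r47 : Tr (List ℕ) := (n (n (n (n (n (n (n (l [4024, 1337]) e) e) e) e) e) (n (n (n (n (n (l [5182]) e) e) e) e) (n (n (n (n (l [448]) e) e) e) e))) (n (n e (n (n (n (n (l [448]) e) e) e) e)) e))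

def r48 : Tr (List ℕ) := (n (n (n (n (n (n (n (l [13496, 2873, 314]) e) e) e) e) e) (n (n (n (n (n (l [15038, 319]) e) e) e) e) (n (n (n (n (l [1088]) e) e) e) e))) (n (n e (n (n (n (n (l [10304]) e) e) e) e)) e))

def r49 : Tr (List ℕ) := (n (n (n (n (n (n (n (l [4408, 1721, 186]) e) e) e) e) e) (n (n (n (n (n (l [1854]) e) e) e) e) (n (n (n (n (l [2112]) e) e) e) e))) (n (n e (n (n (n (n (l [6080]) e) e) e) e)) e))

def r50 : Tr (List ℕ) := (n (n (n (n (n (n (n (l [828, 3517]) e) e) e) e) (n (n (n (n (l [704]) e) e) e) e)) e) (n (n (n (n (n (n (l [1598]) e) e) e) e) e) (n (n (n (n (n (l [3520]) e) e) e) e) e)))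

def r51 : Tr (List ℕ) := (n (n (n (n (n (n (n (l [444, 2365]) e) e) e) e) (n (n (n (n (l [576]) e) e) e) e)) e) (n (n (n (n (n (n (l [1982]) e) e) e) e) e) (n (n (n (n (n (l [2624]) e) e) e) e) e)))

def r52 : Tr (List ℕ) := (n (n (n (n (n (n (n (l [188, 1341]) e) e) e) e) (n (n (n (n (l [320]) e) e) e) e)) e) (n (n (n (n (n (n (l [3134]) e) e) e) e) e) (n (n (n (n (n (l [1088]) e) e) e) e) e)))

def r53 : Tr (List ℕ) := (n (n (n (n (n (n (n (l [316, 957]) e) e) e) e) (n (n (n (n (l [192]) e) e) e) e)) e) (n (n (n (n (n (n (l [3134]) e) e) e) e) e) (n (n (n (n (n (l [1472]) e) e) e) e) e)))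

def r54 : Tr (List ℕ) := (n (n (n (n (n (n (n (l [3132, 829]) e) e) e) e) (n (n (n (n (l [9152]) e) e) e) e)) e) (n (n (n (n (n (n (l [40510, 703]) e) e) e) e) e) (n (n (n (n (n (l [44480]) e) e) e) e) e)))

def r55 : Tr (List ℕ) := (n (n (n (n (n (n (n (l [572, 2493]) e) e) e) e) (n (n (n (n (l [448]) e) e) e) e)) e) (n (n (n (n (n (n (l [3134]) e) e) e) e) e) (n (n (n (n (n (l [1984]) e) e) e) e) e)))

def r56 : Tr (List ℕ) := (n (n (n (n (n (n (n (l [190]) e) e) e) e) e) (n (n (n (n (n (l [192]) e) e) e) e) e)) e)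

def r57 : Tr (List ℕ) := (n (n (n (n (n (n (n (l [958]) e) e) e) e) e) (n (n (n (n (n (l [960]) e) e) e) e) e)) e)

def r58 : Tr (List ℕ) := (n (n (n (n (n (n (n (l [4926]) e) e) e) e) e) (n (n (n (n (n (l [6976]) e) e) e) e) e)) e)

def r59 : Tr (List ℕ) := (n (n (n (n (n (n (n (l [319]) e) e) e) e) e) (n (n (n (n (n (l [12352]) e) e) e) e) e)) e)

def r60 : Tr (List ℕ) := (n e (n (n (n (n (n (n (l [3776]) e) e) e) e) e) e))

def r61 : Tr (List ℕ) := (n e (n (n (n (n (n (n (l [448]) e) e) e) e) e) e))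

def r62 : Tr (List ℕ) := e

def r63 : Tr (List ℕ) := (n (n (n (n (n (n (n (l [2112]) e) e) e) e) e) e) e)

def r64 : Tr (List ℕ) := e

def ee : Tr (Tr (List ℕ)) := l e

def tblT : Tr (Tr (List ℕ)) := (n (n (n (n (n (n (n (l r0) ee) (n (l r32) ee)) (n (n (l r16) ee) (n (l r48) ee))) (n (n (n (l r8) ee) (n (l r40) ee)) (n (n (l r24) ee) (n (l r56) ee)))) (n (n (n (n (l r4) ee) (n (l r36) ee)) (n (n (l r20) ee) (n (l r52) ee))) (n (n (n (l r12) ee) (n (l r44) ee)) (n (n (l r28) ee) (n (l r60) ee))))) (n (n (n (n (n (l r2) ee) (n (l r34) ee)) (n (n (l r18) ee) (n (l r50) ee))) (n (n (n (l r10) ee) (n (l r42) ee)) (n (n (l r26) ee) (n (l r58) ee)))) (n (n (n (n (l r6) ee) (n (l r38) ee)) (n (n (l r22) ee) (n (l r54) ee))) (n (n (n (l r14) ee) (n (l r46) ee)) (n (n (l r30) ee) ee))))) (n (n (n (n (n (n (l r1) ee) (n (l r33) ee)) (n (n (l r17) ee) (n (l r49) ee))) (n (n (n (l r9) ee) (n (l r41) ee)) (n (n (l r25) ee) (n (l r57)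 ee)))) (n (n (n (n (l r5) ee) (n (l r37) ee)) (n (n (l r21) ee) (n (l r53) ee))) (n (n (n (l r13) ee) (n (l r45) ee)) (n (n (l r29) ee) (n (l r61) ee))))) (n (n (n (n (n (l r3) ee) (n (l r35) ee)) (n (n (l r19) ee) (n (l r51) ee))) (n (n (n (l r11) ee) (n (l r43) ee)) (n (n (l r27) ee) (n (l r59) ee)))) (n (n (n (n (l r7) ee) (n (l r39) ee)) (n (n (l r23) ee) (n (l r55) ee))) (n (n (n (l r15) ee) (n (l r47) ee)) (n (n (l r31) ee) (n (l r63) ee)))))))

def z : Tr ℕ := l 0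

def waT : Tr ℕ := (n (n (n (n (n (n (n (l 1) (l 8)) (n (l 4) z)) (n (n (l 3) z) (n (l 5) z))) (n (n (n (l 2) z) (n (l 6) z)) (n (n (l 5) z) (n (l 6) z)))) (n (n (n (n (l 1) z) (n (l 4) z)) (n (n (l 3) z) (n (l 7) z))) (n (n (n (l 4) z) (n (l 5) z)) (n (n (l 4) z) (n (l 8) z))))) (n (n (n (n (n (l 2) z) (n (l 4) z)) (n (n (l 3) z) (n (l 7) z))) (n (n (n (l 2) z) (n (l 6) z)) (n (n (l 4) z) (n (l 6) z)))) (n (n (n (n (l 3) z) (n (l 6) z)) (n (n (l 5) z) (n (l 7) z))) (n (n (n (l 3) z) (n (l 5) z)) (n (n (l 4) z) (n (l 7) z)))))) (n (n (n (n (n (n (l 0) z) (n (l 4) z)) (n (n (l 3) z) (n (l 5) z))) (n (n (n (l 2) z) (n (l 6) z)) (n (n (l 5) z) (n (l 6) z)))) (n (n (n (n (l 3) z) (n (l 6) z)) (n (n (l 3) z) (n (l 7) z))) (n (n (n (l 4) z) (n (l 5) z)) (n (n (l 4) z) (n (l 8) z))))) (n (n (n (n (n (l 1) z) (n (l 4) z)) (n (n (l 3) z) (n (l 7) z))) (n (n (n (l 4) z) (n (l 5) z)) (n (n (l 4) z) (n (l 6) z)))) (n (n (n (n (l 2) z)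 (n (l 6) z)) (n (n (l 5) z) (n (l 7) z))) (n (n (n (l 3) z) (n (l 5) z)) (n (n (l 4) z) (n (l 7) z)))))))

def wbT : Tr ℕ := (n (n (n (n (n (n (n (l 0) (l 1)) (n (l 1) z)) (n (n (l 1) z) (n (l 1) z))) (n (n (n (l 1) z) (n (l 0) z)) (n (n (l 0) z) (n (l 1) z)))) (n (n (n (n (l 1) z) (n (l 1) z)) (n (n (l 1) z) (n (l 0) z))) (n (n (n (l 0) z) (n (l 1) z)) (n (n (l 1) z) (n (l 0) z))))) (n (n (n (n (n (l 0) z) (n (l 1) z)) (n (n (l 1) z) (n (l 0) z))) (n (n (n (l 1) z) (n (l 0) z)) (n (n (l 1) z) (n (l 1) z)))) (n (n (n (n (l 0) z) (n (l 0) z)) (n (n (l 0) z) (n (l 0) z))) (n (n (n (l 1) z) (n (l 1) z)) (n (n (l 1) z) (n (l 1) z)))))) (n (n (n (n (n (n (l 1) z) (n (l 1) z)) (n (n (l 1) z) (n (l 1) z))) (n (n (n (l 1) z) (n (l 0) z)) (n (n (l 0) z) (n (l 1) z)))) (n (n (n (n (l 0) z) (n (l 0) z)) (n (n (l 1) z) (n (l 0) z))) (n (n (n (l 0) z) (n (l 1) z)) (n (n (l 1) z) (n (l 0) z))))) (n (n (n (n (n (l 1) z) (n (l 1) z)) (n (n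 (l 1) z) (n (l 0) z))) (n (n (n (l 0) z) (n (l 1) z)) (n (n (l 1) z) (n (l 1) z)))) (n (n (n (n (l 1) z) (n (l 0) z)) (n (n (l 0) z) (n (l 0) z))) (n (n (n (l 1) z) (n (l 1) z)) (n (n (l 1) z) (n (l 1) z)))))))

def comps : List (ℕ × ℕ × List ℕ) := [(1, 0, [0]), (0, 1, [1]), (2, 0, [2]), (1, 1, [3, 4]), (3, 0, [5, 6]), (2, 1, [7, 8, 9, 10]), (4, 0, [11, 12, 13]), (3, 1, [14, 15, 16, 17, 18, 19, 20, 21]), (5, 0, [22, 23, 24, 25]), (4, 1, [26, 27, 28, 29, 30, 31, 32, 33, 34, 35, 36]), (6, 0, [37, 38, 39, 40, 41, 42]), (5, 1, [43, 44, 45, 46, 47, 48, 49]), (7, 0, [50, 51, 52, 53, 54, 55]), (6, 1, [56, 57, 58, 59]), (8, 0, [60, 61]), (7, 1, [62, 63]), (8, 1, [64])]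

def dec (n : ℕ) : ℕ × ℤ :=
  (n % 128, cond (Nat.beq ((n / 128) % 2) 0) (Int.ofNat (n / 256)) (Int.negSucc (n / 256)))

noncomputable def T (i j : ℕ) : List (ℕ × ℤ) := ((tblT.get i).get j).map dec

noncomputable def wa (i : ℕ) : ℕ := waT.get i
noncomputable def wb (i : ℕ) : ℕ := wbT.get i

noncomputable def D0 : Data where
  N := 65
  T := T
  par := fun i => wa i % 2

end Pool.Agent.W376.TCI.DataZ
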