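import Pool.Agent.W376.TCI.SoundZ
import Pool.Agent.W429.TCI.Stmts
set_option autoImplicit false
set_option linter.unusedSimpArgs false

/-! The Grassmann envelope of the 65-dimensional superalgebra over a field (adapted from
`Pool.Agent.Helper805.Nuc.Model7`). -/

namespace Pool.Agent.W376.TCI.ModelZ
open Pool.Agent.W376.TCI.SuperZ Pool.Agent.W376.TCI.DataZ Pool.Agent.W376.TCI.ChkZ
  Pool.Agent.W376.TCI.SoundZ Pool.Agent.Helper805.Nuc.Ext Pool.Agent.Helper805.Nuc.Tens
  Pool.Agent.W429.TCI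

/-! ### sorting with sign -/

/-- insertion with sign -/
def ins {n : ℕ} (a : Fin n) : List (Fin n) → ℤ × List (Fin n)
  | [] => (1, [a])
  | b :: l => if a.val ≤ b.val then (1, a :: b :: l) else (-(ins a l).1, b :: (ins a l).2)

/-- sorting with sign -/
def srt {n : ℕ} : List (Fin n) → ℤ × List (Fin n)
  | [] => (1, [])
  | a :: l => ((srt l).1 * (ins a (srt l).2).1, (ins a (srt l).2).2)

lemma E_ins (R : Type) [CommRing R] {n : ℕ} (a : Fin n) (l : List (Fin n)) :
    E R n (a :: l) = (ins a l).1 • E R n (ins a l).2 := by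
  induction l with
  | nil => simp [ins]
  | cons b l ih =>
    unfold ins
    split_ifs with h
    · simp
    · rw [E_cons, E_cons, ← mul_assoc, gen_swap, neg_mul, mul_assoc, ← E_cons, ih, mul_smul_comm,
        E_cons, neg_smul]

lemma E_srt (R : Type) [CommRing R] {n : ℕ} (l : List (Fin n)) :
    E R n l = (srt l).1 • E R n (srt l).2 := by
  induction l with
  | nil => simp [srt]
  | cons a l ih =>
    unfold srt
    rw [E_cons, ih, mul_smul_comm, ← E_cons, E_ins R a (srt l).2, smul_smul]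

variable (F : Type) [Field F]

/-- the exterior algebra -/
abbrev Lam := ExteriorAlgebra F (Fin 8 → F)

noncomputable abbrev Ex (l : List (Fin 8)) : Lam F := E F 8 l

noncomputable def part (b : ℕ) : Submodule F (Lam F) :=
  Submodule.span F {u | ∃ l : List (Fin 8), l.length % 2 = b ∧ u = Ex F l}

lemma Ex_mem (l : List (Fin 8)) : Ex F l ∈ part F (l.length % 2) :=
  Submodule.subset_span ⟨l, rfl, rfl⟩

lemma part_mul {a b : ℕ} {u v : Lam F} (hu : u ∈ part F a) (hv : v ∈ part F b) :
    u * v ∈ part F ((a + b) % 2) := by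
  induction hu using Submodule.span_induction with
  | mem u hu =>
    obtain ⟨l, hl, rfl⟩ := hu
    induction hv using Submodule.span_induction with
    | mem v hv =>
      obtain ⟨l', hl', rfl⟩ := hv
      have h : Ex F l * Ex F l' = Ex F (l ++ l') := (E_append F 8 l l').symm
      rw [h]
      have h2 := Ex_mem F (l ++ l')
      have h3 : (l ++ l').length % 2 = (a + b) % 2 := by
        rw [List.length_append]; omega
      rwa [h3] at h2
    | zero => rw [mul_zero]; exact Submodule.zero_mem _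
    | add x y _ _ hx hy => rw [mul_add]; exact Submodule.add_mem _ hx hy
    | smul r x _ hx => rw [mul_smul_comm]; exact Submodule.smul_mem _ _ hx
  | zero => rw [zero_mul]; exact Submodule.zero_mem _
  | add x y _ _ hx hy => rw [add_mul]; exact Submodule.add_mem _ hx hy
  | smul r x _ hx => rw [smul_mul_assoc]; exact Submodule.smul_mem _ _ hx

lemma part_swap {a b : ℕ} {u v : Lam F} (ha : a < 2) (hb : b < 2) (hu : u ∈ part F a)
    (hv : v ∈ part F b) : u * v = (if a * b = 1 then (-1 : F) else 1) • (v * u) := by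
  induction hu using Submodule.span_induction with
  | mem u hu =>
    obtain ⟨l, hl, rfl⟩ := hu
    induction hv using Submodule.span_induction with
    | mem v hv =>
      obtain ⟨l', hl', rfl⟩ := hv
      have h := E_swap F 8 l l'
      rw [h]
      split_ifs with hab
      · have h1 : a = 1 := Nat.eq_one_of_mul_eq_one_right hab
        have h2 : b = 1 := Nat.eq_one_of_mul_eq_one_left hab
        have : Odd (l.length * l'.length) :=
          (Nat.odd_iff.mpr (by omega)).mul (Nat.odd_iff.mpr (by omega))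
        rw [this.neg_one_pow, neg_one_smul, neg_one_mul]
      · have : Even (l.length * l'.length) := by
          rcases Nat.lt_or_ge 0 a with h1 | h1
          · rcases Nat.lt_or_ge 0 b with h2 | h2
            · have h3 : a = 1 := by omega
              have h4 : b = 1 := by omega
              rw [h3, h4] at hab
              exact absurd rfl hab
            · exact (Nat.even_iff.mpr (by omega)).mul_left _
          · exact (Nat.even_iff.mpr (by omega)).mul_right _
        rw [this.neg_one_pow, one_smul, one_mul]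
    | zero => rw [mul_zero, zero_mul, smul_zero]
    | add x y _ _ hx hy => rw [mul_add, add_mul, smul_add, hx, hy]
    | smul r x _ hx => rw [mul_smul_comm, smul_mul_assoc, hx, smul_comm]
  | zero => rw [mul_zero, zero_mul, smul_zero]
  | add x y _ _ hx hy => rw [mul_add, add_mul, smul_add, hx, hy]
  | smul r x _ hx => rw [mul_smul_comm, smul_mul_assoc, hx, smul_comm]

noncomputable def G0 : SuperRing F (Lam F) where
  part := part F
  mul_mem := part_mul F
  swap := part_swap F

/-- the ambient algebra -/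
def R : Type := Fin D0.N → Lam F

namespace R
noncomputable instance : AddCommGroup (R F) := inferInstanceAs (AddCommGroup (Fin D0.N → Lam F))
noncomputable instance : Module F (R F) := inferInstanceAs (Module F (Fin D0.N → Lam F))
noncomputable instance : Mul (R F) := ⟨fun v w => rmul (K := F) (D := D0) v w⟩

lemma mul_def (v w : R F) : v * w = rmul (K := F) (D := D0) v w := rfl

noncomputable instance : NonUnitalNonAssocRing (R F) where
  left_distrib := fun a b c => rmul_add a b c
  right_distrib := fun a b c => add_rmul a b c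
  zero_mul := by
    intro a
    have h2 := smul_rmul (D := D0) (0 : F) (0 : Fin D0.N → Lam F) a
    rw [zero_smul, zero_smul] at h2
    exact h2
  mul_zero := by
    intro a
    have h2 := rmul_smul (D := D0) (0 : F) a (0 : Fin D0.N → Lam F)
    rw [zero_smul, zero_smul] at h2
    exact h2

instance : IsScalarTower F (R F) (R F) := ⟨fun r a b => smul_rmul r a b⟩
instance : SMulCommClass F (R F) (R F) := ⟨fun r a b => (rmul_smul r a b).symm⟩
end R

/-- the Grassmann envelope as a subalgebra -/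
noncomputable def BS : NonUnitalSubalgebra F (R F) where
  carrier := {v | v ∈ env (G0 F) D0}
  add_mem' := fun ha hb => (env (G0 F) D0).add_mem ha hb
  zero_mem' := (env (G0 F) D0).zero_mem
  mul_mem' := fun ha hb => rmul_mem (G0 F) (good F) ha hb
  smul_mem' := fun r _ ha => (env (G0 F) D0).smul_mem r ha

lemma BS_alt (h2 : (2 : F) ≠ 0) : IsAlt (BS F) where
  left := by
    intro x y
    apply Subtype.ext
    funext l
    exact left_alt (G0 F) h2 (good F) (x.2) l
  right := by
    intro x y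
    apply Subtype.ext
    funext l
    exact right_alt (G0 F) h2 (good F) (x.2) l

/-! ### sparse vectors -/

/-- product of sparse vectors -/
noncomputable def mulL (L L' : List (ℕ × ℤ)) : List (ℕ × ℤ) :=
  bindR (Int.ofNat 1) (fun i => bindR (Int.ofNat 1) (fun j => T i j) L' []) L []

/-- combine equal keys -/
noncomputable def nrm (n : ℕ) : List (ℕ × ℤ) → List (ℕ × ℤ) :=
  Nat.rec (fun L => L)
    (fun _ f L => List.rec [] (fun q M _ => (q.1, Int.add q.2 (ksum q.1 M)) :: f (krem q.1 M)) L) n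

/-- keys are indices -/
def Ok (L : List (ℕ × ℤ)) : Prop := ∀ p ∈ L, p.1 < 65

lemma ok_nil : Ok [] := by intro p hp; simp at hp

lemma ok_axpy (a : ℤ) {M tail : List (ℕ × ℤ)} (hM : Ok M) (ht : Ok tail) : Ok (axpy a M tail) := by
  induction M with
  | nil => exact ht
  | cons q M ih =>
    have h : axpy a (q :: M) tail = (q.1, Int.mul a q.2) :: axpy a M tail := rfl
    rw [h]
    intro p hp
    rcases List.mem_cons.mp hp with h1 | h1
    · rw [h1]; exact hM q (by simp)
    · exact ih (fun p hp => hM p (by simp [hp])) p h1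

lemma ok_bindR (a : ℤ) (f : ℕ → List (ℕ × ℤ)) {L tail : List (ℕ × ℤ)} (hf : ∀ q ∈ L, Ok (f q.1)) (ht : Ok tail) :
    Ok (bindR a f L tail) := by
  induction L with
  | nil => exact ht
  | cons q L ih =>
    have h : bindR a f (q :: L) tail = axpy (Int.mul a q.2) (f q.1) (bindR a f L tail) := rfl
    rw [h]
    exact ok_axpy _ (hf q (by simp)) (ih (fun q hq => hf q (by simp [hq])))

lemma ok_T {i j : ℕ} (hi : i < 65) (hj : j < 65) : Ok (T i j) := fun _ hp => (grade hi hj hp).1

lemma ok_mulL {L L' : List (ℕ × ℤ)} (h : Ok L) (h' : Ok L') : Ok (mulL L L') :=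
  ok_bindR _ _ (fun q hq => ok_bindR _ _ (fun q' hq' => ok_T (h q hq) (h' q' hq')) ok_nil) ok_nil

lemma ok_krem (k : ℕ) {L : List (ℕ × ℤ)} (h : Ok L) : Ok (krem k L) := by
  induction L with
  | nil => exact h
  | cons q L ih =>
    have h1 : krem k (q :: L) = cond (Nat.beq q.1 k) (krem k L) (q :: krem k L) := rfl
    rw [h1]
    have h2 := ih (fun p hp => h p (by simp [hp]))
    cases Nat.beq q.1 k
    · intro p hp
      rcases List.mem_cons.mp hp with h3 | h3
      · rw [h3]; exact h q (by simp)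
      · exact h2 p h3
    · exact h2

lemma ok_nrm (n : ℕ) : ∀ {L : List (ℕ × ℤ)}, Ok L → Ok (nrm n L) := by
  induction n with
  | zero => intro L h; exact h
  | succ n ih =>
    intro L h
    cases L with
    | nil => exact ok_nil
    | cons q M =>
      have h1 : nrm (n + 1) (q :: M) = (q.1, Int.add q.2 (ksum q.1 M)) :: nrm n (krem q.1 M) := rfl
      rw [h1]
      intro p hp
      rcases List.mem_cons.mp hp with h3 | h3
      · rw [h3]; exact h q (by simp)
      · exact ih (ok_krem _ (fun p hp => h p (by simp [hp]))) p h3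

lemma cf_nrm (n : ℕ) (k : ℕ) : ∀ L : List (ℕ × ℤ), cf F k (nrm n L) = cf F k L := by
  induction n with
  | zero => intro L; rfl
  | succ n ih =>
    intro L
    cases L with
    | nil => rfl
    | cons q M =>
      have h1 : nrm (n + 1) (q :: M) = (q.1, Int.add q.2 (ksum q.1 M)) :: nrm n (krem q.1 M) := rfl
      rw [h1, cf, cf, ih, cf_krem]
      have h2 : Int.add q.2 (ksum q.1 M) = q.2 + ksum q.1 M := rfl
      simp only [h2]
      by_cases hk : q.1 = k
      · subst hk
        simp only [if_true]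
        rw [Int.cast_add, ksum_eq]
        ring
      · have hk' : ¬ (k = q.1) := fun h => hk h.symm
        rw [if_neg hk, if_neg hk, if_neg hk']

lemma cf_bind_sum {L : List (ℕ × ℤ)} (hL : Ok L) (a : ℤ) (f : ℕ → List (ℕ × ℤ)) (k : ℕ) :
    cf F k (bindR a f L []) = (a : F) * ∑ i : Fin 65, cf F i L * cf F k (f i) := by
  rw [cf_bindR]
  have h := sum_cf F (N := 65) L hL (fun i => cf F k (f i))
  simp only [smul_eq_mul] at h ⊢
  rw [← h]
  simp [cf]

/-- sparse tensors -/
noncomputable def tl (L : List (ℕ × ℤ)) (u : Lam F) : R F := fun k => cf F k L • u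

lemma tl_mul {L L' : List (ℕ × ℤ)} (hL : Ok L) (hL' : Ok L') (u v : Lam F) :
    tl F L u * tl F L' v = tl F (mulL L L') (u * v) := by
  rw [R.mul_def]
  funext k
  show ∑ i : Fin 65, ∑ j : Fin 65, D0.c F i j k • ((cf F i L • u) * (cf F j L' • v)) =
    cf F k (mulL L L') • (u * v)
  have h2 : ∀ i j : Fin 65, D0.c F i j k • ((cf F i L • u) * (cf F j L' • v)) =
      (cf F i L * (cf F j L' * cf F k (T i j))) • (u * v) := by
    intro i j
    rw [smul_mul_assoc, mul_smul_comm, smul_smul, smul_smul]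
    congr 1
    show cf F k (T i j) * cf F i L * cf F j L' = _
    ring
  simp only [h2]
  unfold mulL
  have h1 : ((Int.ofNat 1 : ℤ) : F) = 1 := by simp
  rw [cf_bind_sum F hL, h1, one_mul, Finset.sum_smul]
  refine Finset.sum_congr rfl fun i _ => ?_
  rw [cf_bind_sum F hL', h1, one_mul, Finset.mul_sum, Finset.sum_smul]

lemma tl_congr {L L' : List (ℕ × ℤ)} (h : ∀ k, cf F k L = cf F k L') (u : Lam F) :
    tl F L u = tl F L' u := by
  funext k
  show cf F k L • u = cf F k L' • u
  rw [h k]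

lemma tl_add (L L' : List (ℕ × ℤ)) (u : Lam F) : tl F L u + tl F L' u = tl F (L ++ L') u := by
  funext k
  show cf F k L • u + cf F k L' • u = cf F k (L ++ L') • u
  rw [cf_append, add_smul]

lemma tl_smul (a : ℤ) (L : List (ℕ × ℤ)) (u : Lam F) : tl F (axpy a L []) u = (a : F) • tl F L u := by
  funext k
  show cf F k (axpy a L []) • u = (a : F) • (cf F k L • u)
  rw [cf_axpy, smul_smul]
  simp [cf]

lemma tl_neg (L : List (ℕ × ℤ)) (u : Lam F) : tl F (axpy (Int.negSucc 0) L []) u = - tl F L u := by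
  rw [tl_smul]
  have : ((Int.negSucc 0 : ℤ) : F) = -1 := by simp
  rw [this, neg_one_smul]

lemma tl_one (L : List (ℕ × ℤ)) (u : Lam F) : tl F (axpy (Int.ofNat 1) L []) u = tl F L u := by
  rw [tl_smul]
  have : ((Int.ofNat 1 : ℤ) : F) = 1 := by simp
  rw [this, one_smul]

lemma tl_negr (L : List (ℕ × ℤ)) (u : Lam F) : tl F L (-u) = - tl F L u := by
  funext k
  show cf F k L • (-u) = -(cf F k L • u)
  rw [smul_neg]

lemma tl_zsmulr (L : List (ℕ × ℤ)) (m : ℤ) (u : Lam F) : tl F L (m • u) = m • tl F L u := by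
  funext k
  show cf F k L • (m • u) = m • (cf F k L • u)
  rw [smul_comm]

lemma tl_zsmul (m : ℤ) (L : List (ℕ × ℤ)) (u : Lam F) : m • tl F L u = tl F (axpy m L []) u := by
  rw [tl_smul, Int.cast_smul_eq_zsmul]

lemma tl_nrm (n : ℕ) (L : List (ℕ × ℤ)) (u : Lam F) : tl F (nrm n L) u = tl F L u :=
  tl_congr F (fun k => cf_nrm F n k L) u

/-- `L L' + a L' L` -/
noncomputable def sB (a : ℤ) (L L' : List (ℕ × ℤ)) : List (ℕ × ℤ) :=
  nrm 40 (mulL L L' ++ axpy a (mulL L' L) [])

noncomputable def asL (L L' L'' : List (ℕ × ℤ)) : List (ℕ × ℤ) :=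
  nrm 40 (mulL (mulL L L') L'' ++ axpy (Int.negSucc 0) (mulL L (mulL L' L'')) [])

lemma ok_append {L L' : List (ℕ × ℤ)} (h : Ok L) (h' : Ok L') : Ok (L ++ L') := by
  intro p hp
  rcases List.mem_append.mp hp with h1 | h1
  · exact h p h1
  · exact h' p h1

lemma ok_sB (a : ℤ) {L L' : List (ℕ × ℤ)} (h : Ok L) (h' : Ok L') : Ok (sB a L L') :=
  ok_nrm _ (ok_append (ok_mulL h h') (ok_axpy _ (ok_mulL h' h) ok_nil))

lemma ok_asL {L L' L'' : List (ℕ × ℤ)} (h : Ok L) (h' : Ok L') (h'' : Ok L'') : Ok (asL L L' L'') :=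
  ok_nrm _ (ok_append (ok_mulL (ok_mulL h h') h'') (ok_axpy _ (ok_mulL h (ok_mulL h' h'')) ok_nil))

lemma Ex_append (l l' : List (Fin 8)) : Ex F (l ++ l') = Ex F l * Ex F l' := E_append F 8 l l'

lemma Ex_swap_even (l l' : List (Fin 8)) (h : Even (l.length * l'.length)) :
    Ex F l * Ex F l' = Ex F l' * Ex F l := by
  have := E_swap F 8 l l'
  rw [h.neg_one_pow, one_mul] at this
  exact this

lemma Ex_swap_odd (l l' : List (Fin 8)) (h : Odd (l.length * l'.length)) :
    Ex F l * Ex F l' = - (Ex F l' * Ex F l) := by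
  have := E_swap F 8 l l'
  rw [h.neg_one_pow, neg_one_mul] at this
  exact this

lemma br_odd {L L' : List (ℕ × ℤ)} (h : Ok L) (h' : Ok L') (l l' : List (Fin 8))
    (hl : Odd (l'.length * l.length)) :
    br (tl F L (Ex F l)) (tl F L' (Ex F l')) = tl F (sB (Int.ofNat 1) L L') (Ex F (l ++ l')) := by
  unfold br sB
  rw [tl_mul F h h', tl_mul F h' h, Ex_swap_odd F l' l hl, tl_negr, sub_neg_eq_add, tl_nrm,
    ← tl_add, tl_one, Ex_append]

lemma jo_even {L L' : List (ℕ × ℤ)} (h : Ok L) (h' : Ok L') (l l' : List (Fin 8))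
    (hl : Even (l'.length * l.length)) :
    jo (tl F L (Ex F l)) (tl F L' (Ex F l')) = tl F (sB (Int.ofNat 1) L L') (Ex F (l ++ l')) := by
  unfold jo sB
  rw [tl_mul F h h', tl_mul F h' h, Ex_swap_even F l' l hl, tl_nrm, ← tl_add, tl_one, Ex_append]

lemma as_tl {L L' L'' : List (ℕ × ℤ)} (h : Ok L) (h' : Ok L') (h'' : Ok L'') (l l' l'' : List (Fin 8)) :
    as (tl F L (Ex F l)) (tl F L' (Ex F l')) (tl F L'' (Ex F l'')) =
      tl F (asL L L' L'') (Ex F (l ++ l' ++ l'')) := by
  unfold as asL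
  rw [tl_mul F h h', tl_mul F (ok_mulL h h') h'', tl_mul F h' h'', tl_mul F h (ok_mulL h' h''),
    tl_nrm, ← tl_add, tl_neg, Ex_append, Ex_append, sub_eq_add_neg, mul_assoc]

/-- the value of `Gp` -/
noncomputable def GsL (L1 L2 L3 L4 L5 L6 : List (ℕ × ℤ)) : List (ℕ × ℤ) :=
  sB (Int.ofNat 1) (asL L1 L2 L3) (asL L4 L5 L6)

lemma ok_GsL {L1 L2 L3 L4 L5 L6 : List (ℕ × ℤ)} (h1 : Ok L1) (h2 : Ok L2) (h3 : Ok L3) (h4 : Ok L4)
    (h5 : Ok L5) (h6 : Ok L6) : Ok (GsL L1 L2 L3 L4 L5 L6) :=
  ok_sB _ (ok_asL h1 h2 h3) (ok_asL h4 h5 h6)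

lemma Gp_tl {L1 L2 L3 L4 L5 L6 : List (ℕ × ℤ)} (h1 : Ok L1) (h2 : Ok L2) (h3 : Ok L3) (h4 : Ok L4)
    (h5 : Ok L5) (h6 : Ok L6) (l1 l2 l3 l4 l5 l6 : List (Fin 8))
    (hl : Even ((l4 ++ l5 ++ l6).length * (l1 ++ l2 ++ l3).length)) :
    Gp (tl F L1 (Ex F l1)) (tl F L2 (Ex F l2)) (tl F L3 (Ex F l3)) (tl F L4 (Ex F l4))
      (tl F L5 (Ex F l5)) (tl F L6 (Ex F l6)) =
      tl F (GsL L1 L2 L3 L4 L5 L6) (Ex F ((l1 ++ l2 ++ l3) ++ (l4 ++ l5 ++ l6))) := by
  unfold Gp GsL
  rw [as_tl F h1 h2 h3, as_tl F h4 h5 h6, jo_even F (ok_asL h1 h2 h3) (ok_asL h4 h5 h6) _ _ hl]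

/-- the two basic vectors -/
def bv (b : Bool) : List (ℕ × ℤ) := cond b [(1, Int.ofNat 1)] [(0, Int.ofNat 1)]

lemma ok_bv (b : Bool) : Ok (bv b) := by
  cases b
  · intro p hp
    have : p = (0, Int.ofNat 1) := by simpa [bv] using hp
    rw [this]; norm_num
  · intro p hp
    have : p = (1, Int.ofNat 1) := by simpa [bv] using hp
    rw [this]; norm_num

/-- the exterior part of the `i`-th argument -/
def gl (i : Fin 5) : List (Fin 8) := if i = 4 then [] else [Fin.castLE (by norm_num) i]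

/-- the list of the exterior generators for a permutation -/
def lst (σ : Equiv.Perm (Fin 5)) : List (Fin 8) :=
  (gl (σ 0) ++ gl (σ 1) ++ gl (σ 2)) ++ (gl (σ 3) ++ gl (σ 4) ++ [4])

/-- code of a permutation -/
def code (σ : Equiv.Perm (Fin 5)) : List Bool :=
  [decide (σ 0 = 4), decide (σ 1 = 4), decide (σ 2 = 4), decide (σ 3 = 4), decide (σ 4 = 4)]

/-- the sign -/
def sw : List Bool → ℤ
  | [a, b, c, d, _] => cond a (Int.ofNat 1) (cond b (Int.negSucc 0) (cond c (Int.ofNat 1)
      (cond d (Int.negSucc 0) (Int.ofNat 1))))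
  | _ => 0

noncomputable def FsC : List Bool → List (ℕ × ℤ)
  | [a, b, c, d, e] => axpy (sw [a, b, c, d, e]) (GsL (bv a) (bv b) (bv c) (bv d) (bv e) (bv false)) []
  | _ => []

def words : List (List Bool) :=
  [[true, false, false, false, false], [false, true, false, false, false],
   [false, false, true, false, false], [false, false, false, true, false],
   [false, false, false, false, true]]

lemma codes_eq : (Finset.univ : Finset (Equiv.Perm (Fin 5))).val.map code =
    ((words.flatMap (fun w => List.replicate 24 w) : List (List Bool)) : Multiset (List Bool)) := by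
  decide +kernel

lemma perm5 : ∀ σ : Equiv.Perm (Fin 5), (srt (List.ofFn (fun i => σ i))).2 = List.ofFn (fun i : Fin 5 => i) ∧
    (srt (lst σ)).2 = [0, 1, 2, 3, 4] ∧
    (srt (List.ofFn (fun i => σ i))).1 * (srt (lst σ)).1 = sw (code σ) ∧
    ((gl (σ 3) ++ gl (σ 4) ++ [4]).length * (gl (σ 0) ++ gl (σ 1) ++ gl (σ 2)).length) % 2 = 0 := by
  decide +kernel

lemma sign_eq (σ : Equiv.Perm (Fin 5)) : ((Equiv.Perm.sign σ : ℤˣ) : ℤ) = (srt (List.ofFn (fun i => σ i))).1 := by
  have h1 := E_perm ℤ 5 5 (fun i => i) σ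
  have h2 := E_srt ℤ (List.ofFn (fun i => σ i))
  rw [(perm5 σ).1] at h2
  have h3 := congrArg (top ℤ 5) (h1.symm.trans h2)
  rw [map_zsmul, map_zsmul, top_E] at h3
  simpa using h3

/-- the value of the alternating sum -/
noncomputable def nL : List (ℕ × ℤ) :=
  nrm 40 (List.rec [] (fun w _ ih => axpy (Int.ofNat 24) (FsC w) ih) words)

lemma ok_FsC (w : List Bool) : Ok (FsC w) := by
  match w with
  | [a, b, c, d, e] =>
    exact ok_axpy _ (ok_GsL (ok_bv _) (ok_bv _) (ok_bv _) (ok_bv _) (ok_bv _) (ok_bv _)) ok_nil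
  | [] => exact ok_nil
  | [_] => exact ok_nil
  | [_, _] => exact ok_nil
  | [_, _, _] => exact ok_nil
  | [_, _, _, _] => exact ok_nil
  | _ :: _ :: _ :: _ :: _ :: _ :: _ => exact ok_nil

lemma ok_sum (ws : List (List Bool)) :
    Ok (List.rec [] (fun w _ ih => axpy (Int.ofNat 24) (FsC w) ih) ws : List (ℕ × ℤ)) := by
  induction ws with
  | nil => exact ok_nil
  | cons w ws ih => exact ok_axpy _ (ok_FsC w) ih

lemma ok_nL : Ok nL := ok_nrm _ (ok_sum words)

lemma cf_sum (ws : List (List Bool)) (k : ℕ) :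
    cf F k (List.rec [] (fun w _ ih => axpy (Int.ofNat 24) (FsC w) ih) ws : List (ℕ × ℤ)) =
      ((ws.flatMap (fun w => List.replicate 24 w)).map (fun w => cf F k (FsC w))).sum := by
  induction ws with
  | nil => rfl
  | cons w ws ih =>
    rw [List.flatMap_cons, List.map_append, List.sum_append, ← ih, List.map_replicate, List.sum_replicate]
    show cf F k (axpy (Int.ofNat 24) (FsC w) _) = _
    rw [cf_axpy, nsmul_eq_mul]
    have : ((Int.ofNat 24 : ℤ) : F) = ((24 : ℕ) : F) := by simp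
    rw [this]

lemma sum_codes (k : ℕ) : ∑ σ : Equiv.Perm (Fin 5), cf F k (FsC (code σ)) = cf F k nL := by
  unfold nL
  rw [cf_nrm, cf_sum]
  have h : ∑ σ : Equiv.Perm (Fin 5), cf F k (FsC (code σ)) =
      (((Finset.univ : Finset (Equiv.Perm (Fin 5))).val.map code).map (fun w => cf F k (FsC w))).sum := by
    rw [Multiset.map_map]; rfl
  rw [h, codes_eq, Multiset.map_coe, Multiset.sum_coe]

/-- the generic vectors in the ambient algebra -/
noncomputable def vv (i : Fin 5) : R F := tl F (bv (decide (i = 4))) (Ex F (gl i))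

lemma nstar_vv : nstar (fun i => vv F i) (tl F (bv false) (Ex F [4])) = tl F nL (Ex F [0, 1, 2, 3, 4]) := by
  unfold nstar
  have h1 : ∀ σ : Equiv.Perm (Fin 5), ((Equiv.Perm.sign σ : ℤˣ) : ℤ) •
      Gp (vv F (σ 0)) (vv F (σ 1)) (vv F (σ 2)) (vv F (σ 3)) (vv F (σ 4)) (tl F (bv false) (Ex F [4])) =
      tl F (FsC (code σ)) (Ex F [0, 1, 2, 3, 4]) := by
    intro σ
    obtain ⟨_, p2, p3, p4⟩ := perm5 σ
    unfold vv
    rw [Gp_tl F (ok_bv _) (ok_bv _) (ok_bv _) (ok_bv _) (ok_bv _) (ok_bv _) _ _ _ _ _ _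
      (Nat.even_iff.mpr p4)]
    have h4 : Ex F ((gl (σ 0) ++ gl (σ 1) ++ gl (σ 2)) ++ (gl (σ 3) ++ gl (σ 4) ++ [4])) =
        (srt (lst σ)).1 • Ex F [0, 1, 2, 3, 4] := by
      have := E_srt F (lst σ)
      rw [p2] at this
      exact this
    rw [h4, tl_zsmulr, smul_smul, sign_eq, p3, tl_zsmul]
    rfl
  rw [Finset.sum_congr rfl (fun σ _ => h1 σ)]
  funext k
  have h5 : (∑ σ : Equiv.Perm (Fin 5), tl F (FsC (code σ)) (Ex F [0, 1, 2, 3, 4])) k =
      ∑ σ : Equiv.Perm (Fin 5), (cf F k (FsC (code σ)) • Ex F [0, 1, 2, 3, 4]) := by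
    exact Finset.sum_apply k _ _
  rw [h5, ← Finset.sum_smul, sum_codes]
  rfl

/-- the final vector -/
noncomputable def Gfin : List (ℕ × ℤ) :=
  asL (sB (Int.ofNat 1) nL (bv false)) (bv false) (bv false)

lemma Gfin_eq : ksum 64 Gfin = 1152 := by decide +kernel

end Pool.Agent.W376.TCI.ModelZ
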