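import Pool.Agent.W376.TCI.ChkZ
set_option autoImplicit false

/-! The kernel checks, in pieces that need little memory. -/

namespace Pool.Agent.W376.TCI.PieceZ
open Pool.Agent.W376.TCI.SuperZ Pool.Agent.W376.TCI.DataZ Pool.Agent.W376.TCI.ChkZ

theorem L0 : (comps.all fun c2 => fL (1, 0, [0]) c2) = true := by decide +kernel
theorem L1 : (comps.all fun c2 => fL (0, 1, [1]) c2) = true := by decide +kernel
theorem L2 : (comps.all fun c2 => fL (2, 0, [2]) c2) = true := by decide +kernel
theorem L3 : (comps.all fun c2 => fL (1, 1, [3, 4]) c2) = true := by decide +kernel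
theorem L4 : (comps.all fun c2 => fL (3, 0, [5, 6]) c2) = true := by decide +kernel
theorem L5 : (comps.all fun c2 => fL (2, 1, [7, 8, 9, 10]) c2) = true := by decide +kernel
theorem L6 : (comps.all fun c2 => fL (4, 0, [11, 12, 13]) c2) = true := by decide +kernel
theorem L7 : (comps.all fun c2 => fL (3, 1, [14, 15, 16, 17, 18, 19, 20, 21]) c2) = true := by decide +kernel
theorem L8 : (comps.all fun c2 => fL (5, 0, [22, 23, 24, 25]) c2) = true := by decide +kernel
theorem L9 : (comps.all fun c2 => fL (4, 1, [26, 27, 28, 29, 30, 31, 32, 33, 34, 35, 36]) c2) = true := by decide +kernel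
theorem L10 : (comps.all fun c2 => fL (6, 0, [37, 38, 39, 40, 41, 42]) c2) = true := by decide +kernel
theorem L11 : (comps.all fun c2 => fL (5, 1, [43, 44, 45, 46, 47, 48, 49]) c2) = true := by decide +kernel
theorem L12 : (comps.all fun c2 => fL (7, 0, [50, 51, 52, 53, 54, 55]) c2) = true := by decide +kernel
theorem L13 : (comps.all fun c2 => fL (6, 1, [56, 57, 58, 59]) c2) = true := by decide +kernel
theorem L14 : (comps.all fun c2 => fL (8, 0, [60, 61]) c2) = true := by decide +kernel
theorem L15 : (comps.all fun c2 => fL (7, 1, [62, 63]) c2) = true := by decide +kernel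
theorem L16 : (comps.all fun c2 => fL (8, 1, [64]) c2) = true := by decide +kernel
theorem R0 : (comps.all fun c2 => fR (1, 0, [0]) c2) = true := by decide +kernel
theorem R1 : (comps.all fun c2 => fR (0, 1, [1]) c2) = true := by decide +kernel
theorem R2 : (comps.all fun c2 => fR (2, 0, [2]) c2) = true := by decide +kernel
theorem R3 : (comps.all fun c2 => fR (1, 1, [3, 4]) c2) = true := by decide +kernel
theorem R4 : (comps.all fun c2 => fR (3, 0, [5, 6]) c2) = true := by decide +kernel
theorem R5 : (comps.all fun c2 => fR (2, 1, [7, 8, 9, 10]) c2) = true := by decide +kernel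
theorem R6 : (comps.all fun c2 => fR (4, 0, [11, 12, 13]) c2) = true := by decide +kernel
theorem R7 : (comps.all fun c2 => fR (3, 1, [14, 15, 16, 17, 18, 19, 20, 21]) c2) = true := by decide +kernel
theorem R8 : (comps.all fun c2 => fR (5, 0, [22, 23, 24, 25]) c2) = true := by decide +kernel
theorem R9 : (comps.all fun c2 => fR (4, 1, [26, 27, 28, 29, 30, 31, 32, 33, 34, 35, 36]) c2) = true := by decide +kernel
theorem R10 : (comps.all fun c2 => fR (6, 0, [37, 38, 39, 40, 41, 42]) c2) = true := by decide +kernel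
theorem R11 : (comps.all fun c2 => fR (5, 1, [43, 44, 45, 46, 47, 48, 49]) c2) = true := by decide +kernel
theorem R12 : (comps.all fun c2 => fR (7, 0, [50, 51, 52, 53, 54, 55]) c2) = true := by decide +kernel
theorem R13 : (comps.all fun c2 => fR (6, 1, [56, 57, 58, 59]) c2) = true := by decide +kernel
theorem R14 : (comps.all fun c2 => fR (8, 0, [60, 61]) c2) = true := by decide +kernel
theorem R15 : (comps.all fun c2 => fR (7, 1, [62, 63]) c2) = true := by decide +kernel
theorem R16 : (comps.all fun c2 => fR (8, 1, [64]) c2) = true := by decide +kernel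

lemma all_cons {α : Type} (f : α → Bool) (a : α) (l : List α) (h : f a = true) (h' : l.all f = true) :
    (a :: l).all f = true := by
  rw [List.all_cons, h, h']; rfl

lemma all_nil {α : Type} (f : α → Bool) : ([] : List α).all f = true := rfl

theorem chkL_ok : chkL = true :=
  all_cons _ _ _ L0 (all_cons _ _ _ L1 (all_cons _ _ _ L2 (all_cons _ _ _ L3 (all_cons _ _ _ L4 (all_cons _ _ _ L5 (all_cons _ _ _ L6 (all_cons _ _ _ L7 (all_cons _ _ _ L8 (all_cons _ _ _ L9 (all_cons _ _ _ L10 (all_cons _ _ _ L11 (all_cons _ _ _ L12 (all_cons _ _ _ L13 (all_cons _ _ _ L14 (all_cons _ _ _ L15 (all_cons _ _ _ L16 (all_nil _)))))))))))))))))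

theorem chkR_ok : chkR = true :=
  all_cons _ _ _ R0 (all_cons _ _ _ R1 (all_cons _ _ _ R2 (all_cons _ _ _ R3 (all_cons _ _ _ R4 (all_cons _ _ _ R5 (all_cons _ _ _ R6 (all_cons _ _ _ R7 (all_cons _ _ _ R8 (all_cons _ _ _ R9 (all_cons _ _ _ R10 (all_cons _ _ _ R11 (all_cons _ _ _ R12 (all_cons _ _ _ R13 (all_cons _ _ _ R14 (all_cons _ _ _ R15 (all_cons _ _ _ R16 (all_nil _)))))))))))))))))

end Pool.Agent.W376.TCI.PieceZ
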