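import Pool.Agent.W376.TCI.ModelZ
set_option autoImplicit false

/-! The witness in the Grassmann envelope (part W of the project TCI of helper429). -/

namespace Pool.Agent.W376.TCI.WitZ
open Pool.Agent.W376.TCI.SuperZ Pool.Agent.W376.TCI.DataZ Pool.Agent.W376.TCI.ChkZ
  Pool.Agent.W376.TCI.SoundZ Pool.Agent.Helper805.Nuc.Ext Pool.Agent.Helper805.Nuc.Tens
  Pool.Agent.W429.TCI Pool.Agent.W376.TCI.ModelZ

section
variable {A B : Type} [NonUnitalNonAssocRing A] [NonUnitalNonAssocRing B] (f : A →ₙ+* B)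

lemma map_br (a b : A) : f (br a b) = br (f a) (f b) := by unfold br; simp
lemma map_jo (a b : A) : f (jo a b) = jo (f a) (f b) := by unfold jo; simp
lemma map_as (a b c : A) : f (as a b c) = as (f a) (f b) (f c) := by unfold as; simp
lemma map_Gp (a b c d e y : A) : f (Gp a b c d e y) = Gp (f a) (f b) (f c) (f d) (f e) (f y) := by
  unfold Gp; simp only [map_jo, map_as]
lemma map_nstar (x : Fin 5 → A) (y : A) : f (nstar x y) = nstar (fun i => f (x i)) (f y) := by
  unfold nstar; simp only [map_sum, map_zsmul, map_Gp]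
end

variable (F : Type) [Field F]

/-- a generic odd vector -/
noncomputable def ww (i : Fin 8) : R F := tl F (bv false) (Ex F [i])

lemma G_vv (h2 : (2 : F) ≠ 0) (h3 : (3 : F) ≠ 0) :
    as (br (nstar (fun i => vv F i) (ww F 4)) (ww F 5)) (ww F 6) (ww F 7) ≠ 0 := by
  unfold ww
  rw [nstar_vv, br_odd F ok_nL (ok_bv _) [0, 1, 2, 3, 4] [5] (show Odd (1 * 5) by decide),
    as_tl F (ok_sB _ ok_nL (ok_bv _)) (ok_bv _) (ok_bv _)]
  intro h0
  have h1 := congrFun h0 (⟨64, by norm_num⟩ : Fin 65)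
  have h4 : cf F 64 Gfin • Ex F (([0, 1, 2, 3, 4] ++ [5]) ++ [6] ++ [7]) = 0 := h1
  have h5 : ((([0, 1, 2, 3, 4] ++ [5]) ++ [6] ++ [7]) : List (Fin 8)) = List.ofFn (fun i : Fin 8 => i) := by
    decide
  rw [h5] at h4
  have h6 := congrArg (top F 8) h4
  rw [map_smul, map_zero] at h6
  have h7 : top F 8 (Ex F (List.ofFn (fun i : Fin 8 => i))) = 1 := top_E F 8
  rw [h7, smul_eq_mul, mul_one, ← ksum_eq, Gfin_eq] at h6
  have h8 : ((1152 : ℤ) : F) = (2 : F) ^ 7 * (3 : F) ^ 2 := by push_cast; norm_num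
  rw [h8] at h6
  exact mul_ne_zero (pow_ne_zero _ h2) (pow_ne_zero _ h3) h6

lemma par01 : D0.par 0 = 1 ∧ D0.par 1 = 0 := by decide +kernel

lemma tl_mem (b : Bool) (l : List (Fin 8)) (hl : l.length % 2 = cond b 0 1) :
    tl F (bv b) (Ex F l) ∈ BS F := by
  intro k
  show cf F k (bv b) • Ex F l ∈ part F (D0.par k)
  by_cases h0 : (k : ℕ) = cond b 1 0
  · have h1 : D0.par k = l.length % 2 := by
      rw [h0, hl]
      cases b
      · exact par01.1
      · exact par01.2
    rw [h1]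
    exact Submodule.smul_mem _ _ (Ex_mem F l)
  · have h1 : cf F k (bv b) = 0 := by
      apply cf_eq_zero_of_notMem
      intro p hp hk
      apply h0
      cases b
      · have : p = (0, Int.ofNat 1) := by simpa [bv] using hp
        rw [← hk, this]; rfl
      · have : p = (1, Int.ofNat 1) := by simpa [bv] using hp
        rw [← hk, this]; rfl
    rw [h1, zero_smul]
    exact Submodule.zero_mem _

lemma vv_mem (i : Fin 5) : vv F i ∈ BS F := by
  unfold vv
  apply tl_mem
  fin_cases i <;> decide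

lemma ww_mem (i : Fin 8) : ww F i ∈ BS F := tl_mem F false [i] rfl

theorem w : S_W := by
  intro F _ h2 h3
  refine ⟨BS F, inferInstance, inferInstance, inferInstance, inferInstance, BS_alt F h2, ?_⟩
  refine ⟨fun i => ⟨vv F i, vv_mem F i⟩, ⟨ww F 4, ww_mem F 4⟩, ⟨ww F 5, ww_mem F 5⟩, ⟨ww F 6, ww_mem F 6⟩,
    ⟨ww F 7, ww_mem F 7⟩, ?_⟩
  intro h
  have h1 := congrArg (fun b : BS F => (b : R F)) h
  apply G_vv F h2 h3
  let f : BS F →ₙ+* R F :=
    { toFun := fun b => (b : R F)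
      map_mul' := fun _ _ => rfl
      map_zero' := rfl
      map_add' := fun _ _ => rfl }
  have h2 : f (as (br (nstar (fun i => (⟨vv F i, vv_mem F i⟩ : BS F)) ⟨ww F 4, ww_mem F 4⟩)
      ⟨ww F 5, ww_mem F 5⟩) ⟨ww F 6, ww_mem F 6⟩ ⟨ww F 7, ww_mem F 7⟩) = 0 := h1
  rw [map_as, map_br, map_nstar] at h2
  exact h2

end Pool.Agent.W376.TCI.WitZ
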